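import Pool.Agent.H234R2.Reg

set_option autoImplicit false

namespace Pool.Agent.H234R2

section Card

variable {G : Type*} [Group G] {p : ℕ} [Fact p.Prime] (D : HData G p)

/-- The subgroup generated by the one-parameter groups `i + 1` and `i + 2`. -/
def KK (i : Fin 3) : Subgroup G := Subgroup.closure {g | ∃ a, g = D.x (i + 1) a ∨ g = D.x (i + 2) a}

theorem KK_form (i : Fin 3) {g : G} (hg : g ∈ KK D i) :
    ∃ a b c, g = D.x (i + 1) a * D.x (i + 2) b * D.z i c := by
  have step1 : ∀ g : G, (∃ a b c, g = D.x (i + 1) a * D.x (i + 2) b * D.z i c) → ∀ a',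
      ∃ a b c, g * D.x (i + 1) a' = D.x (i + 1) a * D.x (i + 2) b * D.z i c := by
    rintro g ⟨a, b, c, rfl⟩ a'
    refine ⟨a + a', b, c - a' * b, ?_⟩
    have h1 := D.hcomm i a' b
    have h2 : D.x (i + 2) b * D.x (i + 1) a' = D.x (i + 1) a' * D.x (i + 2) b * D.z i (-(a' * b)) := by
      rw [h1, mul_assoc, mul_assoc, ← D.hz1, ← mul_assoc (D.x (i + 2) b), ← D.hz2, mul_assoc,
        ← mul_assoc (D.z i (a' * b)), ← D.hz, add_neg_cancel, x_zero (D.hz i), one_mul]
    rw [mul_assoc, D.hz1, ← mul_assoc, mul_assoc (D.x (i + 1) a), h2, D.hx, sub_eq_add_neg,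
      add_comm c, D.hz]
    simp only [mul_assoc]
  have step2 : ∀ g : G, (∃ a b c, g = D.x (i + 1) a * D.x (i + 2) b * D.z i c) → ∀ b',
      ∃ a b c, g * D.x (i + 2) b' = D.x (i + 1) a * D.x (i + 2) b * D.z i c := by
    rintro g ⟨a, b, c, rfl⟩ b'
    refine ⟨a, b + b', c, ?_⟩
    rw [mul_assoc, D.hz2, D.hx]
    simp only [mul_assoc]
  induction hg using Subgroup.closure_induction_right with
  | one => exact ⟨0, 0, 0, by rw [x_zero (D.hx _), x_zero (D.hx _), x_zero (D.hz _)]; simp⟩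
  | mul_right g _ y hy ih =>
    obtain ⟨a, rfl | rfl⟩ := hy
    · exact step1 g ih a
    · exact step2 g ih a
  | mul_inv_cancel g _ y hy ih =>
    obtain ⟨a, rfl | rfl⟩ := hy
    · rw [← x_neg (D.hx _)]; exact step1 g ih _
    · rw [← x_neg (D.hx _)]; exact step2 g ih _

theorem KK_card [Finite G] (i : Fin 3) : Nat.card (KK D i) ≤ p ^ 3 := by
  classical
  have h1 : (Set.univ : Set (KK D i)).ncard ≤
      (Set.univ : Set (ZMod p × ZMod p × ZMod p)).ncard := by
    have hsub : ((↑) : KK D i → G) '' Set.univ ⊆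
        (fun t : ZMod p × ZMod p × ZMod p => D.x (i + 1) t.1 * D.x (i + 2) t.2.1 * D.z i t.2.2) ''
          Set.univ := by
      rintro _ ⟨⟨g, hg⟩, -, rfl⟩
      obtain ⟨a, b, c, h⟩ := KK_form D i hg
      exact ⟨(a, b, c), trivial, h.symm⟩
    rw [← Set.ncard_image_of_injective Set.univ Subtype.coe_injective]
    exact (Set.ncard_le_ncard hsub (Set.toFinite _)).trans (Set.ncard_image_le (Set.toFinite _))
  rw [Set.ncard_univ, Set.ncard_univ, Nat.card_prod, Nat.card_prod, Nat.card_zmod] at h1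
  calc Nat.card (KK D i) ≤ p * (p * p) := h1
    _ = p ^ 3 := by ring

end Card

/-! ### Doubling -/

section Double

variable {G : Type*} [Group G] [Fintype G]

theorem SP_symm {A B : Subgroup G} {s : ℝ} (hs : 0 ≤ s) (h : SP A B s) : SP B A s := by
  intro f k hf hk hsum
  set m : ℝ := (∑ g, k g) / (Fintype.card G : ℝ) with hm
  have hcard : (Fintype.card G : ℝ) ≠ 0 := by exact_mod_cast Fintype.card_ne_zero
  have hsumk : ∑ g, (k g - m) = 0 := by
    rw [Finset.sum_sub_distrib, Finset.sum_const, Finset.card_univ, nsmul_eq_mul, hm]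
    field_simp
    ring
  have h1 := h (fun g => k g - m) f (fun g a ha => by rw [hk g a ha]) hf hsumk
  have e1 : ∑ g, (k g - m) * f g = ∑ g, f g * k g := by
    simp only [sub_mul]
    rw [Finset.sum_sub_distrib, ← Finset.mul_sum, hsum, mul_zero, sub_zero]
    exact Finset.sum_congr rfl fun g _ => mul_comm _ _
  have e2 : ∑ g, (k g - m) ^ 2 ≤ ∑ g, k g ^ 2 := by
    have e : ∑ g, (k g - m) ^ 2 = ∑ g, k g ^ 2 - Fintype.card G * m ^ 2 := by
      have : ∀ g, (k g - m) ^ 2 = k g ^ 2 - 2 * m * k g + m ^ 2 := fun g => by ring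
      simp only [this, Finset.sum_add_distrib, Finset.sum_sub_distrib, Finset.sum_const,
        Finset.card_univ, nsmul_eq_mul, ← Finset.mul_sum]
      have h4 : ∑ g, k g = Fintype.card G * m := by rw [hm]; field_simp
      rw [h4]; ring
    rw [e]
    have : 0 ≤ (Fintype.card G : ℝ) * m ^ 2 := by positivity
    linarith
  rw [e1] at h1
  refine h1.trans ?_
  have hf0 : 0 ≤ ∑ g, f g ^ 2 := Finset.sum_nonneg fun _ _ => sq_nonneg _
  calc s * (∑ g, (k g - m) ^ 2) * ∑ g, f g ^ 2 ≤ s * (∑ g, k g ^ 2) * ∑ g, f g ^ 2 := by gcongr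
    _ = s * (∑ g, f g ^ 2) * ∑ g, k g ^ 2 := by ring

/-- The spectral gap property for functions not of mean zero: the centred version. -/
theorem SP_general {A B : Subgroup G} {s : ℝ} (h : SP A B s) (f k : G → ℝ)
    (hf : ∀ g, ∀ a ∈ A, f (g * a) = f g) (hk : ∀ g, ∀ b ∈ B, k (g * b) = k g) :
    ((Fintype.card G : ℝ) * (∑ g, f g * k g) - (∑ g, f g) * (∑ g, k g)) ^ 2 ≤
      s * ((Fintype.card G : ℝ) * (∑ g, f g ^ 2) - (∑ g, f g) ^ 2) *
        ((Fintype.card G : ℝ) * (∑ g, k g ^ 2) - (∑ g, k g) ^ 2) := by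
  set n : ℝ := (Fintype.card G : ℝ) with hn
  have hn0 : n ≠ 0 := by rw [hn]; exact_mod_cast Fintype.card_ne_zero
  have hcen : ∀ u : G → ℝ, ∑ g, (n * u g - ∑ g, u g) = 0 := by
    intro u
    rw [Finset.sum_sub_distrib, Finset.sum_const, Finset.card_univ, nsmul_eq_mul, ← Finset.mul_sum]
    ring
  have h1 := h (fun g => n * f g - ∑ g, f g) (fun g => n * k g - ∑ g, k g)
    (fun g a ha => by rw [hf g a ha]) (fun g a ha => by rw [hk g a ha]) (hcen f)
  have hprod : ∀ u v : G → ℝ, ∑ g, (n * u g - ∑ g, u g) * (n * v g - ∑ g, v g) =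
      n * (n * (∑ g, u g * v g) - (∑ g, u g) * (∑ g, v g)) := by
    intro u v
    have : ∀ g, (n * u g - ∑ g, u g) * (n * v g - ∑ g, v g) =
        n ^ 2 * (u g * v g) - n * (∑ g, v g) * u g - n * (∑ g, u g) * v g +
          (∑ g, u g) * (∑ g, v g) := fun g => by ring
    simp only [this, Finset.sum_add_distrib, Finset.sum_sub_distrib, Finset.sum_const,
        Finset.card_univ, nsmul_eq_mul, ← Finset.mul_sum]
    rw [← hn]
    ring
  have hsq : ∀ u : G → ℝ, ∑ g, (n * u g - ∑ g, u g) ^ 2 =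
      n * (n * (∑ g, u g ^ 2) - (∑ g, u g) ^ 2) := by
    intro u
    have := hprod u u
    simp only [← sq] at this
    exact this
  rw [hprod, hsq, hsq] at h1
  have h2 : n ^ 2 * (n * (∑ g, f g * k g) - (∑ g, f g) * (∑ g, k g)) ^ 2 ≤
      n ^ 2 * (s * (n * (∑ g, f g ^ 2) - (∑ g, f g) ^ 2) *
        (n * (∑ g, k g ^ 2) - (∑ g, k g) ^ 2)) := by
    calc _ = (n * (n * (∑ g, f g * k g) - (∑ g, f g) * (∑ g, k g))) ^ 2 := by ring
      _ ≤ _ := h1
      _ = _ := by ring
  exact le_of_mul_le_mul_left h2 (by positivity)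

end Double

end Pool.Agent.H234R2
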