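import Pool.Agent.H234R2.Dbl

set_option autoImplicit false

namespace Pool.Agent.H234R2

section Sets

variable {G : Type*} [Group G] [Fintype G]

open Classical in
theorem SP_sets {A B : Subgroup G} {s : ℝ} (h : SP A B s) (X Y : Set G)
    (hX : ∀ g, ∀ a ∈ A, g * a ∈ X ↔ g ∈ X) (hY : ∀ g, ∀ b ∈ B, g * b ∈ Y ↔ g ∈ Y) :
    ((Fintype.card G : ℝ) * ((X ∩ Y).ncard : ℝ) - (X.ncard : ℝ) * (Y.ncard : ℝ)) ^ 2 ≤
      s * ((Fintype.card G : ℝ) * (X.ncard : ℝ) - (X.ncard : ℝ) ^ 2) *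
        ((Fintype.card G : ℝ) * (Y.ncard : ℝ) - (Y.ncard : ℝ) ^ 2) := by
  have hs : ∀ Z : Set G, ∑ g, (if g ∈ Z then (1 : ℝ) else 0) = (Z.ncard : ℝ) := by
    intro Z
    rw [Finset.sum_boole, Set.ncard_eq_toFinset_card']
    congr 2
    ext g
    simp
  have h1 := SP_general h (fun g => if g ∈ X then (1 : ℝ) else 0)
    (fun g => if g ∈ Y then (1 : ℝ) else 0)
    (fun g a ha => by simp only [hX g a ha]) (fun g b hb => by simp only [hY g b hb])
  have e1 : ∑ g, (if g ∈ X then (1 : ℝ) else 0) * (if g ∈ Y then (1 : ℝ) else 0) =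
      ((X ∩ Y).ncard : ℝ) := by
    rw [← hs (X ∩ Y)]
    refine Finset.sum_congr rfl fun g _ => ?_
    by_cases h1 : g ∈ X <;> by_cases h2 : g ∈ Y <;> simp [h1, h2]
  have e2 : ∀ (Z : Set G) g, (if g ∈ Z then (1 : ℝ) else 0) ^ 2 = if g ∈ Z then (1 : ℝ) else 0 := by
    intro Z g
    by_cases h1 : g ∈ Z <;> simp [h1]
  simp only [e1, e2, hs] at h1
  exact h1

/-- Balls in the Cayley graph with respect to `A ∪ B`. -/
def E (A B : Subgroup G) : ℕ → Set G
  | 0 => {1}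
  | j + 1 => {g | ∃ x ∈ E A B j, x⁻¹ * g ∈ A ∨ x⁻¹ * g ∈ B}

/-- The union of the `A`-cosets meeting a ball. -/
def EA (A B : Subgroup G) (j : ℕ) : Set G := {g | ∃ x ∈ E A B j, x⁻¹ * g ∈ A}

/-- The union of the `B`-cosets meeting a ball. -/
def EB (A B : Subgroup G) (j : ℕ) : Set G := {g | ∃ x ∈ E A B j, x⁻¹ * g ∈ B}

variable (A B : Subgroup G)

theorem E_succ (j : ℕ) : E A B (j + 1) = EA A B j ∪ EB A B j := by
  ext g
  simp only [E, EA, EB, Set.mem_union, Set.mem_ofPred_eq]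
  constructor
  · rintro ⟨x, hx, h | h⟩
    · exact Or.inl ⟨x, hx, h⟩
    · exact Or.inr ⟨x, hx, h⟩
  · rintro (⟨x, hx, h⟩ | ⟨x, hx, h⟩)
    · exact ⟨x, hx, Or.inl h⟩
    · exact ⟨x, hx, Or.inr h⟩

theorem E_sub_EA (j : ℕ) : E A B j ⊆ EA A B j := fun g hg => ⟨g, hg, by simp [A.one_mem]⟩

theorem E_sub_EB (j : ℕ) : E A B j ⊆ EB A B j := fun g hg => ⟨g, hg, by simp [B.one_mem]⟩

theorem EA_sub (j : ℕ) : EA A B j ⊆ E A B (j + 1) := by
  rw [E_succ]; exact Set.subset_union_left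

theorem EB_sub (j : ℕ) : EB A B j ⊆ E A B (j + 1) := by
  rw [E_succ]; exact Set.subset_union_right

theorem E_mono_succ (j : ℕ) : E A B j ⊆ E A B (j + 1) := (E_sub_EA A B j).trans (EA_sub A B j)

theorem E_mono {i j : ℕ} (h : i ≤ j) : E A B i ⊆ E A B j :=
  monotone_nat_of_le_succ (E_mono_succ A B) h

theorem EA_inv (j : ℕ) : ∀ g, ∀ a ∈ A, g * a ∈ EA A B j ↔ g ∈ EA A B j := by
  intro g a ha
  constructor
  · rintro ⟨x, hx, h⟩
    refine ⟨x, hx, ?_⟩
    have : x⁻¹ * g = x⁻¹ * (g * a) * a⁻¹ := by group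
    rw [this]
    exact A.mul_mem h (A.inv_mem ha)
  · rintro ⟨x, hx, h⟩
    refine ⟨x, hx, ?_⟩
    rw [← mul_assoc]
    exact A.mul_mem h ha

theorem EB_inv (j : ℕ) : ∀ g, ∀ b ∈ B, g * b ∈ EB A B j ↔ g ∈ EB A B j := by
  intro g a ha
  constructor
  · rintro ⟨x, hx, h⟩
    refine ⟨x, hx, ?_⟩
    have : x⁻¹ * g = x⁻¹ * (g * a) * a⁻¹ := by group
    rw [this]
    exact B.mul_mem h (B.inv_mem ha)
  · rintro ⟨x, hx, h⟩
    refine ⟨x, hx, ?_⟩
    rw [← mul_assoc]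
    exact B.mul_mem h ha

/-- Everything is reached. -/
theorem E_exhaust (hgen : A ⊔ B = ⊤) : ∃ j, E A B j = Set.univ := by
  have h1 : ∀ g : G, ∃ j, g ∈ E A B j := by
    intro g
    have hg : g ∈ A ⊔ B := by rw [hgen]; trivial
    rw [Subgroup.sup_eq_closure] at hg
    induction hg using Subgroup.closure_induction_right with
    | one => exact ⟨0, rfl⟩
    | mul_right g _ y hy ih =>
      obtain ⟨j, hj⟩ := ih
      refine ⟨j + 1, g, hj, ?_⟩
      rw [inv_mul_cancel_left]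
      exact hy
    | mul_inv_cancel g _ y hy ih =>
      obtain ⟨j, hj⟩ := ih
      refine ⟨j + 1, g, hj, ?_⟩
      rw [inv_mul_cancel_left]
      rcases hy with hy | hy
      · exact Or.inl (A.inv_mem hy)
      · exact Or.inr (B.inv_mem hy)
  choose f hf using h1
  refine ⟨Finset.univ.sup f, ?_⟩
  ext g
  simp only [Set.mem_univ, iff_true]
  exact E_mono A B (Finset.le_sup (Finset.mem_univ g)) (hf g)

/-- The swap symmetry. -/
def Swap (θ : G ≃* G) : Prop := (∀ g, θ g ∈ B ↔ g ∈ A) ∧ (∀ g, θ g ∈ A ↔ g ∈ B)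

variable {A B}

theorem swap_E {θ : G ≃* G} (h : Swap A B θ) (j : ℕ) (g : G) : θ g ∈ E A B j ↔ g ∈ E A B j := by
  induction j generalizing g with
  | zero => simp [E]
  | succ j ih =>
    constructor
    · rintro ⟨x, hx, h1⟩
      refine ⟨θ.symm x, ?_, ?_⟩
      · rw [← ih]; simpa using hx
      · have e : θ ((θ.symm x)⁻¹ * g) = x⁻¹ * θ g := by simp
        rcases h1 with h1 | h1
        · exact Or.inr ((h.2 _).1 (by rw [e]; exact h1))
        · exact Or.inl ((h.1 _).1 (by rw [e]; exact h1))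
    · rintro ⟨x, hx, h1⟩
      refine ⟨θ x, (ih x).2 hx, ?_⟩
      have e : (θ x)⁻¹ * θ g = θ (x⁻¹ * g) := by simp
      rw [e, h.1, h.2]
      exact h1.symm

theorem swap_EB {θ : G ≃* G} (h : Swap A B θ) (j : ℕ) : (EB A B j).ncard = (EA A B j).ncard := by
  have : EB A B j = θ '' EA A B j := by
    ext g
    constructor
    · rintro ⟨x, hx, h1⟩
      refine ⟨θ.symm g, ⟨θ.symm x, ?_, ?_⟩, by simp⟩
      · rw [← swap_E h]; simpa using hx
      · rw [← h.1]; simpa using h1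
    · rintro ⟨g, ⟨x, hx, h1⟩, rfl⟩
      refine ⟨θ x, (swap_E h _ _).2 hx, ?_⟩
      have e : (θ x)⁻¹ * θ g = θ (x⁻¹ * g) := by simp
      rw [e, h.1]
      exact h1
  rw [this, Set.ncard_image_of_injective _ θ.injective]

/-- Growth of the balls. -/
theorem E_card_le {q : ℕ} (hA : Nat.card A ≤ q) (hB : Nat.card B ≤ q) (j : ℕ) :
    (E A B j).ncard ≤ (2 * q) ^ j := by
  classical
  induction j with
  | zero => simp [E]
  | succ j ih =>
    have h1 : ∀ (H : Subgroup G), Nat.card H ≤ q →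
        ({g | ∃ x ∈ E A B j, x⁻¹ * g ∈ H} : Set G).ncard ≤ q * (2 * q) ^ j := by
      intro H hH
      have hsub : ({g | ∃ x ∈ E A B j, x⁻¹ * g ∈ H} : Set G) ⊆
          (fun t : G × G => t.1 * t.2) '' ((E A B j) ×ˢ (H : Set G)) := by
        rintro g ⟨x, hx, h⟩
        exact ⟨(x, x⁻¹ * g), ⟨hx, h⟩, by simp⟩
      refine (Set.ncard_le_ncard hsub (Set.toFinite _)).trans ((Set.ncard_image_le (Set.toFinite _)).trans ?_)
      rw [Set.ncard_prod, mul_comm]
      exact Nat.mul_le_mul (by rwa [← Nat.card_coe_set_eq]) ih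
    rw [E_succ]
    refine (Set.ncard_union_le _ _).trans ?_
    have h2 := h1 A hA
    have h3 := h1 B hB
    have h4 : (EA A B j).ncard ≤ q * (2 * q) ^ j := h2
    have h5 : (EB A B j).ncard ≤ q * (2 * q) ^ j := h3
    calc (EA A B j).ncard + (EB A B j).ncard ≤ q * (2 * q) ^ j + q * (2 * q) ^ j := by omega
      _ = (2 * q) ^ (j + 1) := by ring

end Sets

end Pool.Agent.H234R2
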