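import Pool.Agent.H234R2.Comb

set_option autoImplicit false

namespace Pool.Agent.H234R2

section Core

variable {G : Type*} [Group G] [Fintype G] {A B : Subgroup G}

/-- Elements with a closed neighbour outside the ball of radius `d`. -/
def Bad (A B : Subgroup G) (d : ℕ) : Set G :=
  {g | ∃ g', (g⁻¹ * g' ∈ A ∨ g⁻¹ * g' ∈ B) ∧ g' ∉ E A B d}

theorem bad_sub (j : ℕ) : Bad A B (j + 1) ⊆ (EA A B j)ᶜ ∪ (EB A B j)ᶜ := by
  rintro g ⟨g', h, hg'⟩
  by_contra hcon
  rw [Set.mem_union, Set.mem_compl_iff, Set.mem_compl_iff, not_or, not_not, not_not] at hcon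
  apply hg'
  rw [E_succ]
  rcases h with h | h
  · left
    have := (EA_inv A B j g _ h).2 hcon.1
    rwa [mul_inv_cancel_left] at this
  · right
    have := (EB_inv A B j g _ h).2 hcon.2
    rwa [mul_inv_cancel_left] at this

theorem ncard_compl_real (X : Set G) : ((Xᶜ).ncard : ℝ) = (Fintype.card G : ℝ) - (X.ncard : ℝ) := by
  have h := Set.ncard_add_ncard_compl X
  rw [Nat.card_eq_fintype_card] at h
  rw [← h]
  push_cast
  ring

theorem ncard_le_card (X : Set G) : (X.ncard : ℝ) ≤ (Fintype.card G : ℝ) := by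
  have := ncard_compl_real X
  have h : (0 : ℝ) ≤ ((Xᶜ).ncard : ℝ) := by positivity
  linarith

theorem expansion {θ : G ≃* G} (hsw : Swap A B θ) {σ : ℝ} (hσ0 : 0 < σ) (hSP : SP A B (σ ^ 2))
    (j : ℕ) (hj : σ * (Fintype.card G : ℝ) ≤ ((EA A B j).ncard : ℝ)) :
    (1 - σ) * (Fintype.card G : ℝ) ≤ ((EA A B (j + 1)).ncard : ℝ) := by
  set n : ℝ := (Fintype.card G : ℝ) with hn
  have hn0 : 0 < n := by
    have : (Fintype.card G : ℝ) ≠ 0 := by exact_mod_cast Fintype.card_ne_zero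
    exact lt_of_le_of_ne (by positivity) this.symm
  set a : ℝ := ((EA A B j).ncard : ℝ) with ha
  set a' : ℝ := ((EA A B (j + 1)).ncard : ℝ) with ha'
  have h1 := SP_sets hSP (EA A B j) (EB A B (j + 1))ᶜ (EA_inv A B j)
    (fun g b hb => by rw [Set.mem_compl_iff, Set.mem_compl_iff, EB_inv A B (j + 1) g b hb])
  have hemp : EA A B j ∩ (EB A B (j + 1))ᶜ = ∅ := by
    ext g
    simp only [Set.mem_inter_iff, Set.mem_compl_iff, Set.mem_empty_iff_false, iff_false, not_and,
      not_not]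
    exact fun hg => E_sub_EB A B (j + 1) (EA_sub A B j hg)
  rw [hemp, Set.ncard_empty, ncard_compl_real, swap_EB hsw (j + 1), ← hn, ← ha, ← ha'] at h1
  have hale : a ≤ n := ncard_le_card _
  have ha'le : a' ≤ n := ncard_le_card _
  have ha0 : 0 < a := lt_of_lt_of_le (by positivity) hj
  have ha'0 : 0 ≤ a' := by rw [ha']; positivity
  by_contra hcon
  push Not at hcon
  have hpos : 0 < n - a' := by nlinarith
  -- a (n - a') ≤ σ² (n - a) a'
  have h2 : a * (n - a') * (a * (n - a')) ≤ a * (n - a') * (σ ^ 2 * ((n - a) * a')) := by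
    have : (n * ((0 : ℕ) : ℝ) - a * (n - a')) ^ 2 = a * (n - a') * (a * (n - a')) := by
      push_cast; ring
    rw [this] at h1
    refine h1.trans (le_of_eq (by ring))
  have h3 : a * (n - a') ≤ σ ^ 2 * ((n - a) * a') := le_of_mul_le_mul_left h2 (by positivity)
  have h4 : (n - a) * a' ≤ n * n := by
    apply mul_le_mul _ ha'le ha'0 hn0.le
    linarith
  have h5 : a * (n - a') ≤ σ ^ 2 * (n * n) := h3.trans (by gcongr)
  have h6 : σ * n < n - a' := by linarith
  have h7 : (σ * n) * (σ * n) < a * (n - a') := by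
    apply mul_lt_mul' hj h6 (by positivity) ha0
  nlinarith

theorem core {θ : G ≃* G} (hsw : Swap A B θ) (hgen : A ⊔ B = ⊤) {σ : ℝ} (hσ0 : 0 < σ)
    (hSP : SP A B (σ ^ 2)) {α : ℝ} (hα : 0 < α) {k0 : ℕ} (hk : 24 ≤ k0 * α)
    (h1 : 2 * k0 * σ ≤ 9 / 1000) (h2 : α + 2 * σ ≤ 16 / 10 ^ 6) {q d0 : ℕ}
    (hA : Nat.card A ≤ q) (hB : Nat.card B ≤ q) (hbig : (q : ℝ) < σ * (Fintype.card G : ℝ))
    (hbig2 : 2 * (2 * (q : ℝ)) ^ d0 < (Fintype.card G : ℝ)) :
    ∃ d k : ℕ, d0 ≤ d ∧ 1 ≤ d ∧ 1 ≤ k ∧ k ≤ k0 ∧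
      (95 / 100) * (Fintype.card G : ℝ) ^ k ≤
        ((E A B d).ncard : ℝ) ^ k - ((E A B (d - 1)).ncard : ℝ) ^ k ∧
      (k : ℝ) * ((Bad A B d).ncard : ℝ) ≤ (9 / 1000) * (Fintype.card G : ℝ) := by
  set n : ℝ := (Fintype.card G : ℝ) with hn
  have hn0 : 0 < n := by
    have : (Fintype.card G : ℝ) ≠ 0 := by exact_mod_cast Fintype.card_ne_zero
    exact lt_of_le_of_ne (by positivity) this.symm
  have hσ1 : σ ≤ 8 / 10 ^ 6 := by linarith
  have hα1 : α ≤ 16 / 10 ^ 6 := by linarith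
  have hele : ∀ j, ((E A B j).ncard : ℝ) ≤ n := fun j => ncard_le_card _
  have hEA : ∀ j, ((EA A B j).ncard : ℝ) ≤ ((E A B (j + 1)).ncard : ℝ) := by
    intro j
    exact_mod_cast Set.ncard_le_ncard (EA_sub A B j) (Set.toFinite _)
  have hE2 : ∀ j, ((E A B (j + 1)).ncard : ℝ) ≤ 2 * ((EA A B j).ncard : ℝ) := by
    intro j
    have h3 := Set.ncard_union_le (EA A B j) (EB A B j)
    rw [← E_succ, swap_EB hsw j] at h3
    have : ((E A B (j + 1)).ncard : ℝ) ≤ ((EA A B j).ncard : ℝ) + ((EA A B j).ncard : ℝ) := by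
      exact_mod_cast h3
    linarith
  have hBad : ∀ j, ((Bad A B (j + 1)).ncard : ℝ) ≤ 2 * (n - ((EA A B j).ncard : ℝ)) := by
    intro j
    have h3 : (Bad A B (j + 1)).ncard ≤ ((EA A B j)ᶜ).ncard + ((EB A B j)ᶜ).ncard :=
      (Set.ncard_le_ncard (bad_sub j) (Set.toFinite _)).trans (Set.ncard_union_le _ _)
    have h4 : ((Bad A B (j + 1)).ncard : ℝ) ≤ (((EA A B j)ᶜ).ncard : ℝ) + (((EB A B j)ᶜ).ncard : ℝ) := by
      exact_mod_cast h3
    rw [ncard_compl_real, ncard_compl_real, swap_EB hsw j] at h4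
    linarith
  -- radius is large once the ball is large
  have hrad : ∀ d, n / 2 ≤ ((E A B d).ncard : ℝ) → d0 ≤ d := by
    intro d hd
    by_contra hlt
    push Not at hlt
    have h3 : ((E A B d).ncard : ℝ) ≤ (2 * (q : ℝ)) ^ d := by exact_mod_cast E_card_le hA hB d
    have hq1 : 1 ≤ q := hA.trans' (Nat.one_le_iff_ne_zero.2 Nat.card_pos.ne')
    have h4 : (2 * (q : ℝ)) ^ d ≤ (2 * (q : ℝ)) ^ d0 := by
      apply pow_le_pow_right₀ _ hlt.le
      have : (1 : ℝ) ≤ q := by exact_mod_cast hq1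
      linarith
    linarith
  -- the first radius
  obtain ⟨J, hJ⟩ := E_exhaust A B hgen
  have hex : ∃ j, σ * n ≤ ((EA A B j).ncard : ℝ) := by
    refine ⟨J, ?_⟩
    have : EA A B J = Set.univ := Set.eq_univ_of_univ_subset (by rw [← hJ]; exact E_sub_EA A B J)
    rw [this, Set.ncard_univ, Nat.card_eq_fintype_card, ← hn]
    nlinarith
  classical
  obtain ⟨j, hj, hjmin⟩ : ∃ j, σ * n ≤ ((EA A B j).ncard : ℝ) ∧
      ∀ i < j, ((EA A B i).ncard : ℝ) < σ * n :=
    ⟨Nat.find hex, Nat.find_spec hex, fun i hi => not_le.1 (Nat.find_min hex hi)⟩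
  have hj0 : j ≠ 0 := by
    rintro rfl
    have h3 : EA A B 0 = (A : Set G) := by
      ext g
      simp [EA, E]
    rw [h3, ← Nat.card_coe_set_eq] at hj
    have h4 : ((Nat.card A : ℕ) : ℝ) ≤ q := by exact_mod_cast hA
    have h5 : (Nat.card (A : Set G) : ℝ) = (Nat.card A : ℝ) := rfl
    rw [h5] at hj
    linarith
  obtain ⟨i, rfl⟩ := Nat.exists_eq_succ_of_ne_zero hj0
  rw [Nat.succ_eq_add_one] at hj
  have hi := hjmin i (Nat.lt_succ_self i)
  have hexp := expansion hsw hσ0 hSP (i + 1) hj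
  rw [← hn] at hexp
  have hei : ((E A B (i + 1)).ncard : ℝ) < 2 * (σ * n) := lt_of_le_of_lt (hE2 i) (by linarith)
  have hE3 : (1 - σ) * n ≤ ((E A B (i + 3)).ncard : ℝ) := hexp.trans (hEA (i + 2))
  by_cases hcase : α * n ≤ ((E A B (i + 3)).ncard : ℝ) - ((E A B (i + 2)).ncard : ℝ)
  · -- case A
    refine ⟨i + 3, k0, hrad _ (by nlinarith), by omega, ?_, le_rfl, ?_, ?_⟩
    · by_contra hk0
      have : k0 = 0 := by omega
      subst this
      norm_num at hk
    · have hu : ((1 - σ) * n) ^ k0 ≤ ((E A B (i + 3)).ncard : ℝ) ^ k0 :=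
        pow_le_pow_left₀ (by nlinarith) hE3 _
      have hl : ((E A B (i + 3 - 1)).ncard : ℝ) ^ k0 ≤ ((1 - α) * n) ^ k0 := by
        apply pow_le_pow_left₀ (by positivity)
        have := hele (i + 3)
        show ((E A B (i + 2)).ncard : ℝ) ≤ _
        linarith
      rw [mul_pow] at hu hl
      have hb1 : 1 - (k0 : ℝ) * σ ≤ (1 - σ) ^ k0 := by
        have := one_add_mul_le_pow (a := -σ) (by linarith) k0
        have e : 1 + (k0 : ℝ) * -σ = 1 - k0 * σ := by ring
        rw [e] at this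
        exact this
      have hb2 : (1 - α) ^ k0 ≤ 1 / 25 := by
        have h3 : (1 - α) ^ k0 * (1 + α) ^ k0 ≤ 1 := by
          rw [← mul_pow]
          apply pow_le_one₀
          · nlinarith
          · nlinarith
        have h4 : 25 ≤ (1 + α) ^ k0 := by
          have := one_add_mul_le_pow (a := α) (by linarith) k0
          linarith
        have h5 : 0 ≤ (1 - α) ^ k0 := by
          apply pow_nonneg; linarith
        nlinarith
      have hnk : 0 < n ^ k0 := by positivity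
      have h6 : (1 - (k0 : ℝ) * σ) * n ^ k0 ≤ ((E A B (i + 3)).ncard : ℝ) ^ k0 :=
        le_trans (mul_le_mul_of_nonneg_right hb1 hnk.le) hu
      have h7 : ((E A B (i + 3 - 1)).ncard : ℝ) ^ k0 ≤ 1 / 25 * n ^ k0 :=
        hl.trans (mul_le_mul_of_nonneg_right hb2 hnk.le)
      nlinarith
    · have h3 := hBad (i + 2)
      have h4 : ((Bad A B (i + 3)).ncard : ℝ) ≤ 2 * (σ * n) := by
        show ((Bad A B (i + 2 + 1)).ncard : ℝ) ≤ _
        linarith
      calc (k0 : ℝ) * ((Bad A B (i + 3)).ncard : ℝ) ≤ k0 * (2 * (σ * n)) := by gcongr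
        _ = (2 * k0 * σ) * n := by ring
        _ ≤ _ := by gcongr
  · -- case B
    push Not at hcase
    have hE2' : (1 - σ - α) * n ≤ ((E A B (i + 2)).ncard : ℝ) := by linarith
    have hk01 : 1 ≤ k0 := by
      by_contra hk0
      have : k0 = 0 := by omega
      subst this
      norm_num at hk
    refine ⟨i + 2, 1, hrad _ (by nlinarith), by omega, le_rfl, hk01, ?_, ?_⟩
    · rw [pow_one, pow_one, pow_one]
      show _ ≤ ((E A B (i + 2)).ncard : ℝ) - ((E A B (i + 1)).ncard : ℝ)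
      nlinarith
    · set c : ℝ := n - ((EA A B (i + 1)).ncard : ℝ) with hc
      have hc0 : 0 ≤ c := by rw [hc]; have := ncard_le_card (EA A B (i + 1)); linarith
      have hcn : c ≤ n := by
        have : (0 : ℝ) ≤ ((EA A B (i + 1)).ncard : ℝ) := by positivity
        linarith
      have h3 := SP_sets hSP (EA A B (i + 1))ᶜ (EB A B (i + 1))ᶜ
        (fun g b hb => by rw [Set.mem_compl_iff, Set.mem_compl_iff, EA_inv A B (i + 1) g b hb])
        (fun g b hb => by rw [Set.mem_compl_iff, Set.mem_compl_iff, EB_inv A B (i + 1) g b hb])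
      rw [← Set.compl_union, ← E_succ, ncard_compl_real, ncard_compl_real, ncard_compl_real,
        swap_EB hsw (i + 1), ← hn, ← hc] at h3
      set w : ℝ := n - ((E A B (i + 1 + 1)).ncard : ℝ) with hw
      have hw1 : w ≤ (σ + α) * n := by
        have : ((E A B (i + 1 + 1)).ncard : ℝ) = ((E A B (i + 2)).ncard : ℝ) := rfl
        rw [hw, this]; linarith
      have h4 : (n * w - c * c) ^ 2 ≤ (σ * (n * n)) ^ 2 := by
        refine h3.trans ?_
        have h5 : n * c - c ^ 2 ≤ n * n := by nlinarith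
        have h6 : 0 ≤ n * c - c ^ 2 := by nlinarith
        calc σ ^ 2 * (n * c - c ^ 2) * (n * c - c ^ 2) ≤ σ ^ 2 * (n * n) * (n * n) := by gcongr
          _ = (σ * (n * n)) ^ 2 := by ring
      have h5 := abs_le_of_sq_le_sq' h4 (by positivity)
      have h6 : c * c ≤ (α + 2 * σ) * (n * n) := by nlinarith [h5.1, mul_le_mul_of_nonneg_left hw1 hn0.le]
      have h7 : c * c ≤ (4 / 1000 * n) * (4 / 1000 * n) := by
        refine h6.trans ?_
        have : (α + 2 * σ) * (n * n) ≤ 16 / 10 ^ 6 * (n * n) := by gcongr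
        refine this.trans (le_of_eq (by ring))
      have h8 : c ≤ 4 / 1000 * n := by
        by_contra hlt
        push Not at hlt
        have h9 : 0 < 4 / 1000 * n := by positivity
        nlinarith
      have h9 := hBad (i + 1)
      rw [← hc] at h9
      have h10 : ((Bad A B (i + 2)).ncard : ℝ) ≤ 2 * c := h9
      rw [Nat.cast_one, one_mul]
      linarith

end Core

end Pool.Agent.H234R2
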