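import Pool.Agent.H234R2.Card

set_option autoImplicit false

namespace Pool.Agent.H234R2

theorem cs_two {s a b a' b' u v : ℝ} (hs : 0 ≤ s) (ha : 0 ≤ a) (hb : 0 ≤ b) (ha' : 0 ≤ a')
    (hb' : 0 ≤ b') (hu : u ^ 2 ≤ s * a * b) (hv : v ^ 2 ≤ s * a' * b') :
    (u + v) ^ 2 ≤ s * (a + a') * (b + b') := by
  have h1 : (2 * (u * v)) ^ 2 ≤ (s * (a * b' + a' * b)) ^ 2 := by
    have h2 : u ^ 2 * v ^ 2 ≤ (s * a * b) * (s * a' * b') :=
      mul_le_mul hu hv (sq_nonneg _) (by positivity)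
    nlinarith [mul_nonneg (mul_nonneg hs hs) (sq_nonneg (a * b' - a' * b))]
  have h3 : 2 * (u * v) ≤ s * (a * b' + a' * b) :=
    le_of_sq_le_sq h1 (by positivity)
  nlinarith

theorem cs_finset {ι : Type*} (T : Finset ι) {s : ℝ} (hs : 0 ≤ s) (a b c : ι → ℝ)
    (ha : ∀ i, 0 ≤ a i) (hb : ∀ i, 0 ≤ b i) (hc : ∀ i, c i ^ 2 ≤ s * a i * b i) :
    (∑ i ∈ T, c i) ^ 2 ≤ s * (∑ i ∈ T, a i) * (∑ i ∈ T, b i) := by
  classical
  induction T using Finset.induction_on with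
  | empty => simp
  | insert i T hi ih =>
    rw [Finset.sum_insert hi, Finset.sum_insert hi, Finset.sum_insert hi]
    exact cs_two hs (ha i) (hb i) (Finset.sum_nonneg fun j _ => ha j)
      (Finset.sum_nonneg fun j _ => hb j) (hc i) ih

variable {G : Type*} [Group G] [Fintype G]

theorem sq_sum_le_card (u : G → ℝ) :
    0 ≤ (Fintype.card G : ℝ) * (∑ g, u g ^ 2) - (∑ g, u g) ^ 2 := by
  have := sq_sum_le_card_mul_sum_sq (s := (Finset.univ : Finset G)) (f := u)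
  rw [Finset.card_univ] at this
  linarith

theorem SP_double {A B : Subgroup G} {s : ℝ} (hs : 0 ≤ s) (h : SP A B s) :
    SP (A.prod B) (B.prod A) s := by
  intro f k hf hk hsum
  set n : ℝ := (Fintype.card G : ℝ) with hn
  have hn0 : 0 < n := by
    have : (Fintype.card G : ℝ) ≠ 0 := by exact_mod_cast Fintype.card_ne_zero
    exact lt_of_le_of_ne (by positivity) this.symm
  set F1 : G → ℝ := fun y => ∑ x, f (x, y) with hF1
  set K1 : G → ℝ := fun y => ∑ x, k (x, y) with hK1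
  have hrow : ∀ y, (n * (∑ x, f (x, y) * k (x, y)) - F1 y * K1 y) ^ 2 ≤
      s * (n * (∑ x, f (x, y) ^ 2) - F1 y ^ 2) * (n * (∑ x, k (x, y) ^ 2) - K1 y ^ 2) := by
    intro y
    refine SP_general h (fun x => f (x, y)) (fun x => k (x, y)) ?_ ?_
    · intro x a ha
      have := hf (x, y) (a, 1) ⟨ha, B.one_mem⟩
      simpa using this
    · intro x b hb
      have := hk (x, y) (b, 1) ⟨hb, A.one_mem⟩
      simpa using this
  have hcs := cs_finset Finset.univ hs (fun y => n * (∑ x, f (x, y) ^ 2) - F1 y ^ 2)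
    (fun y => n * (∑ x, k (x, y) ^ 2) - K1 y ^ 2)
    (fun y => n * (∑ x, f (x, y) * k (x, y)) - F1 y * K1 y)
    (fun y => sq_sum_le_card (fun x => f (x, y))) (fun y => sq_sum_le_card (fun x => k (x, y))) hrow
  have hcol := SP_symm hs h F1 K1
    (by
      intro y b hb
      refine Finset.sum_congr rfl fun x _ => ?_
      have := hf (x, y) (1, b) ⟨A.one_mem, hb⟩
      simpa using this)
    (by
      intro y a ha
      refine Finset.sum_congr rfl fun x _ => ?_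
      have := hk (x, y) (1, a) ⟨B.one_mem, ha⟩
      simpa using this)
    (by
      rw [← hsum, Fintype.sum_prod_type_right])
  have hF1s : 0 ≤ ∑ y, F1 y ^ 2 := Finset.sum_nonneg fun _ _ => sq_nonneg _
  have hK1s : 0 ≤ ∑ y, K1 y ^ 2 := Finset.sum_nonneg fun _ _ => sq_nonneg _
  have htot := cs_two hs
    (Finset.sum_nonneg fun y _ => sq_sum_le_card (fun x => f (x, y)))
    (Finset.sum_nonneg fun y _ => sq_sum_le_card (fun x => k (x, y))) hF1s hK1s hcs hcol
  have e1 : ∑ y, (n * (∑ x, f (x, y) * k (x, y)) - F1 y * K1 y) + ∑ y, F1 y * K1 y =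
      n * ∑ g, f g * k g := by
    rw [Finset.sum_sub_distrib, sub_add_cancel, ← Finset.mul_sum, Fintype.sum_prod_type_right]
  have e2 : ∑ y, (n * (∑ x, f (x, y) ^ 2) - F1 y ^ 2) + ∑ y, F1 y ^ 2 = n * ∑ g, f g ^ 2 := by
    rw [Finset.sum_sub_distrib, sub_add_cancel, ← Finset.mul_sum, Fintype.sum_prod_type_right]
  have e3 : ∑ y, (n * (∑ x, k (x, y) ^ 2) - K1 y ^ 2) + ∑ y, K1 y ^ 2 = n * ∑ g, k g ^ 2 := by
    rw [Finset.sum_sub_distrib, sub_add_cancel, ← Finset.mul_sum, Fintype.sum_prod_type_right]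
  rw [← hn, e1, e2, e3] at htot
  have h2 : n ^ 2 * (∑ g, f g * k g) ^ 2 ≤ n ^ 2 * (s * (∑ g, f g ^ 2) * (∑ g, k g ^ 2)) := by
    calc _ = (n * ∑ g, f g * k g) ^ 2 := by ring
      _ ≤ _ := htot
      _ = _ := by ring
  exact le_of_mul_le_mul_left h2 (by positivity)

end Pool.Agent.H234R2
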