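import Pool.Agent.H234R2.Gr

set_option autoImplicit false

namespace Pool.Agent.H234R2

section Final

variable {G : Type} [Group G] [Fintype G] (A B : Subgroup G) (k M : ℕ)

/-- The vertex type of the final graph. -/
abbrev VV (G : Type) (k M : ℕ) : Type := (Fin k → G) × ZMod (2 * M)

/-- The final graph: strong product of `k` copies of the Cayley graph with a cycle. -/
def Gr : SimpleGraph (VV G k M) where
  Adj u v := u ≠ v ∧ (∀ i, (u.1 i)⁻¹ * v.1 i ∈ A ∨ (u.1 i)⁻¹ * v.1 i ∈ B) ∧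
    (v.2 - u.2 = 0 ∨ v.2 - u.2 = 1 ∨ v.2 - u.2 = -1)
  symm := ⟨by
    rintro u v ⟨h1, h2, h3⟩
    refine ⟨h1.symm, fun i => ?_, ?_⟩
    · have e : (v.1 i)⁻¹ * u.1 i = ((u.1 i)⁻¹ * v.1 i)⁻¹ := by group
      rw [e]
      rcases h2 i with h | h
      · exact Or.inl (A.inv_mem h)
      · exact Or.inr (B.inv_mem h)
    · have e : u.2 - v.2 = -(v.2 - u.2) := by ring
      rw [e]
      rcases h3 with h | h | h
      · left; rw [h, neg_zero]
      · right; right; rw [h]
      · right; left; rw [h, neg_neg]⟩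
  loopless := ⟨fun u h => h.1 rfl⟩

/-- The base vertex. -/
def v0 : VV G k M := (fun _ => 1, 0)

/-- The balls. -/
def BB (j : ℕ) : Set (VV G k M) := {u | (∀ i, u.1 i ∈ E A B j) ∧ u.2 ∈ T (2 * M) j}

theorem BB_zero : BB A B k M 0 = {v0 k M} := by
  ext ⟨x, y⟩
  constructor
  · rintro ⟨h1, ⟨i, hi, h2⟩⟩
    have hx : x = fun _ => 1 := by
      funext i
      exact h1 i
    have hi0 : i = 0 := by simpa using hi
    subst hi0
    simp only at h2
    rw [Set.mem_singleton_iff, v0, hx, ← h2]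
    simp
  · intro h
    rw [Set.mem_singleton_iff] at h
    rw [h]
    exact ⟨fun i => rfl, ⟨0, by simp, by simp [v0]⟩⟩

theorem BB_step (j : ℕ) (w : VV G k M) : w ∈ BB A B k M (j + 1) ↔
    ∃ u ∈ BB A B k M j, u = w ∨ (Gr A B k M).Adj u w := by
  constructor
  · rintro ⟨h1, h2⟩
    obtain ⟨y, hy, h3⟩ := (T_step _ _ _).1 h2
    choose x hx h4 using h1
    refine ⟨(x, y), ⟨hx, hy⟩, ?_⟩
    by_cases h : (x, y) = w
    · exact Or.inl h
    · exact Or.inr ⟨h, h4, h3⟩
  · rintro ⟨u, ⟨h1, h2⟩, rfl | ⟨_, h3, h4⟩⟩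
    · exact ⟨fun i => E_mono_succ A B j (h1 i), (T_step _ _ _).2 ⟨_, h2, Or.inl (sub_self _)⟩⟩
    · exact ⟨fun i => ⟨_, h1 i, h3 i⟩, (T_step _ _ _).2 ⟨_, h2, h4⟩⟩

theorem BB_all [NeZero M] (hgen : A ⊔ B = ⊤) (w : VV G k M) : ∃ j, w ∈ BB A B k M j := by
  obtain ⟨J, hJ⟩ := E_exhaust A B hgen
  refine ⟨max J (2 * M), fun i => ?_, ?_⟩
  · apply E_mono A B (le_max_left J (2 * M))
    rw [hJ]; trivial
  · refine ⟨(w.2.val : ℤ), ?_, ?_⟩
    · rw [abs_of_nonneg (by positivity)]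
      have h1 := ZMod.val_lt w.2
      have h2 := le_max_right J (2 * M)
      omega
    · simp

theorem Gr_trans (u v : VV G k M) : ∃ φ : Gr A B k M ≃g Gr A B k M, φ u = v := by
  refine ⟨{ toEquiv := Equiv.prodCongr
              (Equiv.piCongrRight (fun i => Equiv.mulLeft (v.1 i * (u.1 i)⁻¹)))
              (Equiv.addRight (v.2 - u.2)),
            map_rel_iff' := ?_ }, ?_⟩
  · intro a b
    constructor
    · rintro ⟨h1, h2, h3⟩
      refine ⟨fun h => h1 (by rw [h]), fun i => ?_, ?_⟩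
      · have := h2 i
        simpa [mul_assoc] using this
      · simpa using h3
    · rintro ⟨h1, h2, h3⟩
      refine ⟨fun h => h1 ((Equiv.injective _) h), fun i => ?_, ?_⟩
      · have := h2 i
        simpa [mul_assoc] using this
      · simpa using h3
  · ext i
    · simp
    · simp

theorem ncard_pi_const {G : Type} [Finite G] (k : ℕ) (S : Set G) :
    (Set.pi Set.univ (fun _ : Fin k => S)).ncard = S.ncard ^ k := by
  rw [← Nat.card_coe_set_eq, Nat.card_congr (Equiv.Set.univPi (fun _ : Fin k => S)), Nat.card_pi]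
  simp

/-- Degree bound. -/
theorem Gr_deg {q : ℕ} [NeZero M] (hA : Nat.card A ≤ q) (hB : Nat.card B ≤ q) (v : VV G k M) :
    ((Gr A B k M).neighborSet v).ncard ≤ (2 * q) ^ k * 3 := by
  classical
  have hcardAB : ((A : Set G) ∪ (B : Set G)).ncard ≤ 2 * q := by
    refine (Set.ncard_union_le _ _).trans ?_
    have h1 : (A : Set G).ncard ≤ q := by rwa [← Nat.card_coe_set_eq]
    have h2 : (B : Set G).ncard ≤ q := by rwa [← Nat.card_coe_set_eq]
    omega
  have hsub : (Gr A B k M).neighborSet v ⊆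
      (fun t : (Fin k → G) × ZMod (2 * M) => ((fun i => v.1 i * t.1 i, v.2 + t.2) : VV G k M)) ''
        ((Set.pi Set.univ (fun _ : Fin k => (A : Set G) ∪ (B : Set G))) ×ˢ
          ({0, 1, -1} : Set (ZMod (2 * M)))) := by
    rintro w ⟨-, h2, h3⟩
    refine ⟨(fun i => (v.1 i)⁻¹ * w.1 i, w.2 - v.2), ⟨fun i _ => h2 i, ?_⟩, ?_⟩
    · simpa using h3
    · ext i
      · simp
      · simp
  refine (Set.ncard_le_ncard hsub (Set.toFinite _)).trans ((Set.ncard_image_le (Set.toFinite _)).trans ?_)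
  rw [Set.ncard_prod]
  apply Nat.mul_le_mul
  · rw [ncard_pi_const]
    exact Nat.pow_le_pow_left hcardAB k
  · refine (Set.ncard_insert_le _ _).trans ?_
    have := Set.ncard_insert_le (1 : ZMod (2 * M)) {-1}
    rw [Set.ncard_singleton] at this
    omega

end Final

end Pool.Agent.H234R2
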