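import Pool.Agent.H234R2.Fin1

set_option autoImplicit false

namespace Pool.Agent.H234R2

theorem ncard_pi_one {G : Type} [Fintype G] {k : ℕ} (i : Fin k) (S : Set G) :
    (Fintype.card G) * ({x : Fin k → G | x i ∈ S}).ncard = S.ncard * (Fintype.card G) ^ k := by
  classical
  have h1 : {x : Fin k → G | x i ∈ S} =
      Set.pi Set.univ (fun j : Fin k => if j = i then S else Set.univ) := by
    ext x
    simp only [Set.mem_ofPred_eq, Set.mem_pi, Set.mem_univ, true_implies]
    constructor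
    · intro h j
      by_cases hj : j = i
      · rw [if_pos hj, hj]; exact h
      · rw [if_neg hj]; trivial
    · intro h
      have := h i
      rwa [if_pos rfl] at this
  rw [h1, ← Nat.card_coe_set_eq, Nat.card_congr (Equiv.Set.univPi _), Nat.card_pi,
    ← Finset.mul_prod_erase Finset.univ _ (Finset.mem_univ i)]
  have h2 : ∏ x ∈ Finset.univ.erase i, Nat.card ↥(if x = i then S else Set.univ) =
      (Fintype.card G) ^ (k - 1) := by
    rw [Finset.prod_congr rfl (g := fun _ => Fintype.card G), Finset.prod_const,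
      Finset.card_erase_of_mem (Finset.mem_univ i), Finset.card_univ, Fintype.card_fin]
    intro x hx
    rw [if_neg (Finset.ne_of_mem_erase hx)]
    rw [Nat.card_coe_set_eq, Set.ncard_univ, Nat.card_eq_fintype_card]
  rw [h2, if_pos rfl, Nat.card_coe_set_eq]
  have hk : k = (k - 1) + 1 := by have := i.pos; omega
  conv_rhs => rw [hk, pow_succ]
  ring

section Final2

variable {G : Type} [Group G] [Fintype G] (A B : Subgroup G) (k M : ℕ)

theorem final_counts [NeZero M] (hgen : A ⊔ B = ⊤) {d : ℕ} (hd : 2000 ≤ d)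
    (hM1 : 19 * d ≤ 10 * M) (hM2 : 10 * M ≤ 19 * d + 9)
    (h95 : (95 / 100) * (Fintype.card G : ℝ) ^ k ≤
        ((E A B d).ncard : ℝ) ^ k - ((E A B (d - 1)).ncard : ℝ) ^ k)
    (hbad : (k : ℝ) * ((Bad A B d).ncard : ℝ) ≤ (9 / 1000) * (Fintype.card G : ℝ)) :
    (Gr A B k M).Connected ∧
    Nat.card (VV G k M) ≤ 2 * {v | (Gr A B k M).dist (v0 k M) v = d}.ncard ∧
    99 * {v | (Gr A B k M).dist (v0 k M) v = d}.ncard ≤
      100 * {v | (Gr A B k M).dist (v0 k M) v = d ∧
        ∀ w, (Gr A B k M).Adj v w → (Gr A B k M).dist (v0 k M) w ≠ d + 1}.ncard ∧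
    19 * d ≤ 10 * (Gr A B k M).diam := by
  classical
  set Γ := Gr A B k M with hΓ
  set o : VV G k M := v0 k M with ho
  have hM0 : 1 ≤ M := Nat.one_le_iff_ne_zero.2 (NeZero.ne M)
  have hcon : Γ.Connected :=
    ball_connected Γ o (BB A B k M) (BB_zero A B k M) (BB_step A B k M) (BB_all A B k M hgen)
  have hdist : ∀ j w, Γ.dist o w ≤ j ↔ w ∈ BB A B k M j :=
    dist_le_iff Γ o (BB A B k M) (BB_zero A B k M) (BB_step A B k M) (BB_all A B k M hgen)
  set n : ℝ := (Fintype.card G : ℝ) with hn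
  have hn0 : 0 < n := by
    have : (Fintype.card G : ℝ) ≠ 0 := by exact_mod_cast Fintype.card_ne_zero
    exact lt_of_le_of_ne (by positivity) this.symm
  have hTd : (T (2 * M) d).ncard = 2 * d + 1 := T_card (by omega)
  set P : ℕ → Set (Fin k → G) := fun j => Set.pi Set.univ (fun _ => E A B j) with hP
  have hPsub : P (d - 1) ⊆ P d := fun x hx i hi => E_mono A B (Nat.sub_le d 1) (hx i hi)
  -- lower bound for the sphere
  have hlow : (P d \ P (d - 1)) ×ˢ (T (2 * M) d) ⊆ {v | Γ.dist o v = d} := by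
    rintro ⟨x, y⟩ ⟨⟨h1, h2⟩, h3⟩
    have h4 : Γ.dist o (x, y) ≤ d := (hdist d _).2 ⟨fun i => h1 i trivial, h3⟩
    have h5 : ¬ Γ.dist o (x, y) ≤ d - 1 := by
      rw [hdist]
      rintro ⟨h6, -⟩
      exact h2 (fun i _ => h6 i)
    show Γ.dist o (x, y) = d
    omega
  have hlowcard : (95 / 100) * n ^ k * (2 * d + 1) ≤ (({v | Γ.dist o v = d}).ncard : ℝ) := by
    have h1 := Set.ncard_le_ncard hlow (Set.toFinite _)
    rw [Set.ncard_prod, hTd] at h1
    have h2 : ((P d \ P (d - 1)).ncard : ℝ) =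
        ((E A B d).ncard : ℝ) ^ k - ((E A B (d - 1)).ncard : ℝ) ^ k := by
      have h3 := Set.ncard_sdiff_add_ncard_of_subset hPsub (Set.toFinite _)
      rw [hP] at h3
      simp only [ncard_pi_const] at h3
      have h4 : (((E A B d).ncard ^ k : ℕ) : ℝ) = ((P d \ P (d - 1)).ncard : ℝ) +
          (((E A B (d - 1)).ncard ^ k : ℕ) : ℝ) := by
        exact_mod_cast h3.symm
      push_cast at h4
      linarith
    have h5 : ((P d \ P (d - 1)).ncard : ℝ) * (2 * d + 1) ≤ (({v | Γ.dist o v = d}).ncard : ℝ) := by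
      exact_mod_cast h1
    refine le_trans ?_ h5
    rw [h2]
    gcongr
  -- the vertices with outward neighbours
  set Out : Set (VV G k M) := {v | Γ.dist o v = d ∧ ∃ w, Γ.Adj v w ∧ Γ.dist o w = d + 1} with hOut
  set Q : Set (Fin k → G) := ⋃ i ∈ (Finset.univ : Finset (Fin k)), {x | x i ∈ Bad A B d} with hQ
  have hQcard : (Q.ncard : ℝ) ≤ (9 / 1000) * n ^ k := by
    have h1 : Q.ncard ≤ ∑ i : Fin k, ({x : Fin k → G | x i ∈ Bad A B d}).ncard := by
      rw [hQ]
      exact Finset.set_ncard_biUnion_le _ _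
    have h2 : Fintype.card G * Q.ncard ≤ k * ((Bad A B d).ncard * (Fintype.card G) ^ k) := by
      calc Fintype.card G * Q.ncard ≤
          Fintype.card G * ∑ i : Fin k, ({x : Fin k → G | x i ∈ Bad A B d}).ncard :=
            Nat.mul_le_mul_left _ h1
        _ = ∑ i : Fin k, Fintype.card G * ({x : Fin k → G | x i ∈ Bad A B d}).ncard :=
            Finset.mul_sum _ _ _
        _ = ∑ i : Fin k, (Bad A B d).ncard * (Fintype.card G) ^ k := by
            exact Finset.sum_congr rfl fun i _ => ncard_pi_one i _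
        _ = k * ((Bad A B d).ncard * (Fintype.card G) ^ k) := by
            rw [Finset.sum_const, Finset.card_univ, Fintype.card_fin, smul_eq_mul]
    have h3 : n * (Q.ncard : ℝ) ≤ (k : ℝ) * (((Bad A B d).ncard : ℝ) * n ^ k) := by
      rw [hn]
      exact_mod_cast h2
    have h4 : (k : ℝ) * (((Bad A B d).ncard : ℝ) * n ^ k) ≤ (9 / 1000) * n * n ^ k := by
      rw [← mul_assoc]
      gcongr
    have h5 : n * (Q.ncard : ℝ) ≤ n * ((9 / 1000) * n ^ k) := by
      refine (h3.trans h4).trans (le_of_eq (by ring))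
    exact le_of_mul_le_mul_left h5 hn0
  have hOutsub : Out ⊆ Q ×ˢ (T (2 * M) d) ∪
      (Set.univ : Set (Fin k → G)) ×ˢ ({((d : ℤ) : ZMod (2 * M)), ((-d : ℤ) : ZMod (2 * M))} : Set (ZMod (2 * M))) := by
    rintro ⟨x, y⟩ ⟨h1, ⟨x', y'⟩, h2, h3⟩
    have h4 : (x, y) ∈ BB A B k M d := (hdist d _).1 h1.le
    have h5 : (x', y') ∉ BB A B k M d := by
      rw [← hdist]; omega
    by_cases h6 : ∀ i, x' i ∈ E A B d
    · right
      refine ⟨trivial, ?_⟩
      apply T_diff (2 * M) d (by omega)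
      refine ⟨h4.2, fun h7 => h5 ⟨h6, ?_⟩⟩
      have h8 := (T_step (2 * M) (d - 1) y').2 ⟨y, h7, h2.2.2⟩
      rwa [Nat.sub_add_cancel (by omega : 1 ≤ d)] at h8
    · left
      push Not at h6
      obtain ⟨i, hi⟩ := h6
      refine ⟨?_, h4.2⟩
      rw [hQ]
      simp only [Finset.mem_univ, Set.iUnion_true, Set.mem_iUnion]
      exact ⟨i, x' i, h2.2.1 i, hi⟩
  have hOutcard : (Out.ncard : ℝ) ≤ (9 / 1000) * n ^ k * (2 * d + 1) + 2 * n ^ k := by
    have h1 := (Set.ncard_le_ncard hOutsub (Set.toFinite _)).trans (Set.ncard_union_le _ _)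
    rw [Set.ncard_prod, Set.ncard_prod, hTd, Set.ncard_univ] at h1
    have h2 : ({((d : ℤ) : ZMod (2 * M)), ((-d : ℤ) : ZMod (2 * M))} : Set (ZMod (2 * M))).ncard ≤ 2 := by
      refine (Set.ncard_insert_le _ _).trans ?_
      rw [Set.ncard_singleton]
    have h3 : Nat.card (Fin k → G) = (Fintype.card G) ^ k := by
      rw [Nat.card_pi]; simp
    rw [h3] at h1
    have h4 : Out.ncard ≤ Q.ncard * (2 * d + 1) + (Fintype.card G) ^ k * 2 :=
      h1.trans (Nat.add_le_add_left (Nat.mul_le_mul_left _ h2) _)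
    have h5 : (Out.ncard : ℝ) ≤ (Q.ncard : ℝ) * (2 * d + 1) + n ^ k * 2 := by
      rw [hn]
      exact_mod_cast h4
    have h6 : (Q.ncard : ℝ) * (2 * d + 1) ≤ (9 / 1000) * n ^ k * (2 * d + 1) := by gcongr
    linarith
  have hdr : (2000 : ℝ) ≤ d := by exact_mod_cast hd
  have hnk : 0 < n ^ k := by positivity
  refine ⟨hcon, ?_, ?_, ?_⟩
  · -- half of the vertices
    have h1 : Nat.card (VV G k M) = (Fintype.card G) ^ k * (2 * M) := by
      rw [Nat.card_prod, Nat.card_pi, Nat.card_zmod]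
      simp
    rw [h1]
    have h2 : n ^ k * (2 * M) ≤ 2 * (({v | Γ.dist o v = d}).ncard : ℝ) := by
      have h3 : (10 : ℝ) * M ≤ 19 * d + 9 := by exact_mod_cast hM2
      have h4 : n ^ k * (2 * M) ≤ 2 * ((95 / 100) * n ^ k * (2 * d + 1)) := by nlinarith
      linarith
    rw [hn] at h2
    exact_mod_cast h2
  · -- no outward neighbours
    set Good : Set (VV G k M) := {v | Γ.dist o v = d ∧ ∀ w, Γ.Adj v w → Γ.dist o w ≠ d + 1} with hGood
    have h1 : {v | Γ.dist o v = d} ⊆ Good ∪ Out := by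
      intro v hv
      by_cases h : ∃ w, Γ.Adj v w ∧ Γ.dist o w = d + 1
      · right; exact ⟨hv, h⟩
      · left
        refine ⟨hv, fun w hw h2 => h ⟨w, hw, h2⟩⟩
    have h2 : ({v | Γ.dist o v = d}).ncard ≤ Good.ncard + Out.ncard :=
      (Set.ncard_le_ncard h1 (Set.toFinite _)).trans (Set.ncard_union_le _ _)
    have h3 : (({v | Γ.dist o v = d}).ncard : ℝ) ≤ (Good.ncard : ℝ) + (Out.ncard : ℝ) := by
      exact_mod_cast h2
    have h4 : 100 * (Out.ncard : ℝ) ≤ (({v | Γ.dist o v = d}).ncard : ℝ) := by nlinarith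
    have h5 : (99 : ℝ) * (({v | Γ.dist o v = d}).ncard : ℝ) ≤ 100 * (Good.ncard : ℝ) := by linarith
    exact_mod_cast h5
  · -- the diameter
    set u : VV G k M := ((fun _ => 1), ((M : ℤ) : ZMod (2 * M))) with hu
    have h1 : u ∈ BB A B k M (Γ.dist o u) := (hdist _ _).1 le_rfl
    have h2 : M ≤ Γ.dist o u := T_half hM0 h1.2
    have : Nonempty (VV G k M) := ⟨o⟩
    have h3 : Γ.dist o u ≤ Γ.diam :=
      SimpleGraph.dist_le_diam (SimpleGraph.connected_iff_ediam_ne_top.1 hcon)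
    omega

end Final2

end Pool.Agent.H234R2
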