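import Pool.Agent.H234R2.Core

set_option autoImplicit false

namespace Pool.Agent.H234R2

/-! ### Distances through balls -/

section Dist

variable {V : Type*} (Γ : SimpleGraph V) (v0 : V) (Bs : ℕ → Set V)

theorem mem_walk (h0 : Bs 0 = {v0})
    (hstep : ∀ j w, w ∈ Bs (j + 1) ↔ ∃ u ∈ Bs j, u = w ∨ Γ.Adj u w) :
    ∀ j w, w ∈ Bs j → ∃ p : Γ.Walk v0 w, p.length ≤ j := by
  intro j
  induction j with
  | zero =>
    intro w hw
    rw [h0] at hw
    obtain rfl : w = v0 := hw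
    exact ⟨SimpleGraph.Walk.nil, le_rfl⟩
  | succ j ih =>
    intro w hw
    obtain ⟨u, hu, rfl | h⟩ := (hstep j w).1 hw
    · obtain ⟨p, hp⟩ := ih u hu
      exact ⟨p, by omega⟩
    · obtain ⟨p, hp⟩ := ih u hu
      exact ⟨p.concat h, by rw [SimpleGraph.Walk.length_concat]; omega⟩

theorem walk_mem
    (hstep : ∀ j w, w ∈ Bs (j + 1) ↔ ∃ u ∈ Bs j, u = w ∨ Γ.Adj u w) {u w : V} (p : Γ.Walk u w) :
    ∀ j, u ∈ Bs j → w ∈ Bs (j + p.length) := by
  induction p with
  | nil => intro j h; simpa using h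
  | @cons a b c h p ih =>
    intro j hj
    have := ih (j + 1) ((hstep j b).2 ⟨a, hj, Or.inr h⟩)
    rw [SimpleGraph.Walk.length_cons]
    have e : j + (p.length + 1) = j + 1 + p.length := by omega
    rw [e]
    exact this

theorem ball_connected (h0 : Bs 0 = {v0})
    (hstep : ∀ j w, w ∈ Bs (j + 1) ↔ ∃ u ∈ Bs j, u = w ∨ Γ.Adj u w)
    (hall : ∀ w, ∃ j, w ∈ Bs j) : Γ.Connected := by
  have hr : ∀ w, Γ.Reachable v0 w := by
    intro w
    obtain ⟨j, hj⟩ := hall w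
    obtain ⟨p, -⟩ := mem_walk Γ v0 Bs h0 hstep j w hj
    exact ⟨p⟩
  exact { preconnected := fun u w => (hr u).symm.trans (hr w), nonempty := ⟨v0⟩ }

theorem dist_le_iff (h0 : Bs 0 = {v0})
    (hstep : ∀ j w, w ∈ Bs (j + 1) ↔ ∃ u ∈ Bs j, u = w ∨ Γ.Adj u w)
    (hall : ∀ w, ∃ j, w ∈ Bs j) (j : ℕ) (w : V) : Γ.dist v0 w ≤ j ↔ w ∈ Bs j := by
  have hmono : ∀ i j, i ≤ j → Bs i ⊆ Bs j := by
    intro i j h
    exact monotone_nat_of_le_succ (f := Bs) (fun j w hw => (hstep j w).2 ⟨w, hw, Or.inl rfl⟩) h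
  constructor
  · intro h
    obtain ⟨p, hp⟩ := (ball_connected Γ v0 Bs h0 hstep hall).exists_walk_length_eq_dist v0 w
    have := walk_mem Γ Bs hstep p 0 (by rw [h0]; rfl)
    rw [zero_add, hp] at this
    exact hmono _ _ h this
  · intro h
    obtain ⟨p, hp⟩ := mem_walk Γ v0 Bs h0 hstep j w h
    exact (SimpleGraph.dist_le p).trans hp

end Dist

/-! ### Intervals in cyclic groups -/

section Cyc

/-- Residues of the integers of absolute value at most `j`. -/
def T (N : ℕ) (j : ℕ) : Set (ZMod N) := {y | ∃ i : ℤ, |i| ≤ j ∧ (i : ZMod N) = y}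

theorem T_step (N j : ℕ) (y : ZMod N) :
    y ∈ T N (j + 1) ↔ ∃ x ∈ T N j, y - x = 0 ∨ y - x = 1 ∨ y - x = -1 := by
  constructor
  · rintro ⟨i, hi, rfl⟩
    rw [abs_le] at hi
    push_cast at hi
    by_cases h1 : i ≤ j
    · by_cases h2 : -j ≤ i
      · exact ⟨(i : ZMod N), ⟨i, by rw [abs_le]; exact ⟨h2, h1⟩, rfl⟩, Or.inl (sub_self _)⟩
      · refine ⟨((i + 1 : ℤ) : ZMod N), ⟨i + 1, by rw [abs_le]; constructor <;> omega, rfl⟩,
          Or.inr (Or.inr ?_)⟩
        push_cast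
        ring
    · refine ⟨((i - 1 : ℤ) : ZMod N), ⟨i - 1, by rw [abs_le]; constructor <;> omega, rfl⟩,
          Or.inr (Or.inl ?_)⟩
      push_cast
      ring
  · rintro ⟨x, ⟨i, hi, rfl⟩, h⟩
    rw [abs_le] at hi
    rcases h with h | h | h
    · refine ⟨i, by rw [abs_le]; push_cast; constructor <;> omega, ?_⟩
      rw [sub_eq_zero] at h
      exact h.symm
    · refine ⟨i + 1, by rw [abs_le]; push_cast; constructor <;> omega, ?_⟩
      push_cast
      rw [sub_eq_iff_eq_add] at h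
      rw [h, add_comm]
    · refine ⟨i - 1, by rw [abs_le]; push_cast; constructor <;> omega, ?_⟩
      push_cast
      rw [sub_eq_iff_eq_add] at h
      rw [h]; ring

theorem T_card {N j : ℕ} (h : 2 * j + 1 ≤ N) : (T N j).ncard = 2 * j + 1 := by
  have h1 : T N j = (fun i : ℤ => (i : ZMod N)) '' (Set.Icc (-(j : ℤ)) j) := by
    ext y
    simp only [T, Set.mem_ofPred_eq, Set.mem_image, Set.mem_Icc, abs_le]
  rw [h1, Set.ncard_image_of_injOn, Set.ncard_eq_toFinset_card']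
  · simp
    omega
  · intro a ha b hb hab
    simp only [Set.mem_Icc] at ha hb
    have h2 := (ZMod.intCast_eq_intCast_iff_dvd_sub a b N).1 hab
    obtain ⟨c, hc⟩ := h2
    by_contra hne
    have hc0 : c ≠ 0 := by
      rintro rfl
      apply hne
      omega
    rcases lt_or_gt_of_ne hc0 with hc1 | hc1
    · have : (N : ℤ) * c ≤ -N := by nlinarith
      omega
    · have : (N : ℤ) ≤ (N : ℤ) * c := by nlinarith
      omega

theorem T_diff (N d : ℕ) (hd : 1 ≤ d) : T N d \ T N (d - 1) ⊆ {((d : ℤ) : ZMod N), ((-d : ℤ) : ZMod N)} := by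
  rintro y ⟨⟨i, hi, rfl⟩, h2⟩
  rw [abs_le] at hi
  have h3 : i = d ∨ i = -d := by
    by_contra hcon
    push Not at hcon
    apply h2
    refine ⟨i, ?_, rfl⟩
    rw [abs_le]
    push_cast [Nat.cast_sub hd]
    constructor <;> omega
  rcases h3 with rfl | rfl
  · left; rfl
  · right; rfl

theorem T_half {M j : ℕ} (hM : 1 ≤ M) (h : ((M : ℤ) : ZMod (2 * M)) ∈ T (2 * M) j) : M ≤ j := by
  obtain ⟨i, hi, h⟩ := h
  rw [abs_le] at hi
  have h2 := (ZMod.intCast_eq_intCast_iff_dvd_sub i M (2 * M)).1 h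
  obtain ⟨c, hc⟩ := h2
  push_cast at hc
  by_contra hlt
  push Not at hlt
  rcases le_or_gt c 0 with h0 | h0
  · have : 2 * (M : ℤ) * c ≤ 0 := by nlinarith
    omega
  · have : 2 * (M : ℤ) ≤ 2 * M * c := by nlinarith
    omega

end Cyc

end Pool.Agent.H234R2
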