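import Pool.Agent.H234R2.TD

set_option autoImplicit false

namespace Pool.Agent.H234R2

open scoped InnerProductSpace
open Module

section Loc

variable {V : Type*} [NormedAddCommGroup V] [InnerProductSpace ℝ V]
variable {G : Type*} [Group G] (ρ : G →* (V →ₗ[ℝ] V)) {p : ℕ} [Fact p.Prime]

/-- Invariant vectors of a one-parameter subgroup. -/
def Inv (x : ZMod p → G) : Submodule ℝ V where
  carrier := {v | ∀ a, ρ (x a) v = v}
  zero_mem' := by intro a; simp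
  add_mem' := by
    intro v w hv hw a
    rw [map_add, hv a, hw a]
  smul_mem' := by
    intro c v hv a
    rw [map_smul, hv a]

/-- Averaging over a one-parameter subgroup. -/
noncomputable def avg (x : ZMod p → G) (v : V) : V := (1 / (p : ℝ)) • ∑ a, ρ (x a) v

theorem mem_Inv (x : ZMod p → G) (v : V) : v ∈ Inv ρ x ↔ ∀ a, ρ (x a) v = v := Iff.rfl

theorem avg_mem {x : ZMod p → G} (hx : ∀ a b, x (a + b) = x a * x b) (v : V) :
    avg ρ x v ∈ Inv ρ x := by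
  intro b
  rw [avg, map_smul, map_sum]
  congr 1
  rw [← Equiv.sum_comp (Equiv.addLeft b) (fun a => ρ (x a) v)]
  refine Finset.sum_congr rfl fun a _ => ?_
  rw [Equiv.coe_addLeft, hx, map_mul]
  rfl

theorem avg_fix {x : ZMod p → G} {v : V} (hv : v ∈ Inv ρ x) : avg ρ x v = v := by
  have hp : (p : ℝ) ≠ 0 := by exact_mod_cast (Fact.out : p.Prime).ne_zero
  rw [avg, Finset.sum_congr rfl (fun a _ => hv a), Finset.sum_const, Finset.card_univ, ZMod.card,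
    ← Nat.cast_smul_eq_nsmul ℝ, smul_smul, one_div, inv_mul_cancel₀ hp, one_smul]

theorem x_zero {x : ZMod p → G} (hx : ∀ a b, x (a + b) = x a * x b) : x 0 = 1 := by
  have := hx 0 0
  rw [add_zero] at this
  exact (left_eq_mul.1 this)

theorem x_neg {x : ZMod p → G} (hx : ∀ a b, x (a + b) = x a * x b) (a : ZMod p) :
    x (-a) = (x a)⁻¹ := by
  rw [eq_inv_iff_mul_eq_one, ← hx, neg_add_cancel, x_zero hx]

variable (hρ : ∀ g x y, ⟪ρ g x, ρ g y⟫_ℝ = ⟪x, y⟫_ℝ)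

include hρ

theorem inner_rho (g : G) (v w : V) : ⟪ρ g v, w⟫_ℝ = ⟪v, ρ g⁻¹ w⟫_ℝ := by
  rw [← hρ g v (ρ g⁻¹ w)]
  congr 1
  rw [← Module.End.mul_apply, ← map_mul, mul_inv_cancel, map_one]
  rfl

theorem avg_selfadj {x : ZMod p → G} (hx : ∀ a b, x (a + b) = x a * x b) (v w : V) :
    ⟪avg ρ x v, w⟫_ℝ = ⟪v, avg ρ x w⟫_ℝ := by
  rw [avg, avg, inner_smul_left, inner_smul_right, sum_inner, inner_sum]
  simp only [conj_trivial]
  congr 1
  rw [← Equiv.sum_comp (Equiv.neg (ZMod p)) (fun a => ⟪v, ρ (x a) w⟫_ℝ)]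
  refine Finset.sum_congr rfl fun a _ => ?_
  rw [Equiv.neg_apply, x_neg hx, inner_rho ρ hρ]

/-- The local spectral gap: Heisenberg group modulo `p`. -/
theorem local_gap {x1 x2 z : ZMod p → G}
    (hx1 : ∀ a b, x1 (a + b) = x1 a * x1 b) (hx2 : ∀ a b, x2 (a + b) = x2 a * x2 b)
    (hz : ∀ a b, z (a + b) = z a * z b)
    (hcomm : ∀ a b, x1 a * x2 b = z (a * b) * x2 b * x1 a)
    (hz1 : ∀ a b, z a * x1 b = x1 b * z a) (hz2 : ∀ a b, z a * x2 b = x2 b * z a) :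
    ∀ u ∈ Inv ρ x2, ∀ w ∈ Inv ρ x1, (∀ y ∈ Inv ρ x1 ⊓ Inv ρ x2, ⟪u, y⟫_ℝ = 0) →
      ⟪u, w⟫_ℝ ≤ (1 / Real.sqrt p) * ‖u‖ * ‖w‖ := by
  intro u hu w hw hperp
  have hp0 : 0 < (p : ℝ) := by exact_mod_cast (Fact.out : p.Prime).pos
  have hmul : ∀ (g h : G) (v : V), ρ (g * h) v = ρ g (ρ h v) := by
    intro g h v; rw [map_mul]; rfl
  -- commutation of averages over `z` with `ρ g` for `g` commuting with `z`
  have hcz : ∀ (g : G), (∀ a, z a * g = g * z a) → ∀ v, ρ g (avg ρ z v) = avg ρ z (ρ g v) := by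
    intro g hg v
    rw [avg, avg, map_smul, map_sum]
    congr 1
    refine Finset.sum_congr rfl fun a _ => ?_
    rw [← hmul, ← hmul, hg]
  set uz := avg ρ z u with huz
  have huz_z : uz ∈ Inv ρ z := avg_mem ρ hz u
  have huz_2 : uz ∈ Inv ρ x2 := by
    intro b
    rw [huz, hcz _ (fun a => hz2 a b), hu b]
  set y := avg ρ x1 uz with hy
  have hy1 : y ∈ Inv ρ x1 := avg_mem ρ hx1 uz
  have hyz : y ∈ Inv ρ z := by
    intro c
    rw [hy, avg, map_smul, map_sum]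
    congr 1
    refine Finset.sum_congr rfl fun a _ => ?_
    rw [← hmul, hz1, hmul, huz_z c]
  have hy2 : y ∈ Inv ρ x2 := by
    intro b
    rw [hy, avg, map_smul, map_sum]
    congr 1
    refine Finset.sum_congr rfl fun a _ => ?_
    have e : x2 b * x1 a = x1 a * x2 b * z (-(a * b)) := by
      have h1 := hcomm a b
      rw [h1, mul_assoc, mul_assoc]
      have h2 : x1 a * z (-(a * b)) = z (-(a * b)) * x1 a := (hz1 _ _).symm
      have h3 : x2 b * z (-(a * b)) = z (-(a * b)) * x2 b := (hz2 _ _).symm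
      rw [h2, ← mul_assoc (x2 b), h3, mul_assoc, ← mul_assoc (z (a * b)), ← hz, add_neg_cancel,
        x_zero hz, one_mul]
    rw [← hmul, e, hmul, huz_z, hmul, huz_2]
  have hyy : y = 0 := by
    have h1 : ⟪y, y⟫_ℝ = ⟪u, y⟫_ℝ := by
      conv_lhs => rw [hy]
      rw [avg_selfadj ρ hρ hx1, avg_fix ρ hy1, huz, avg_selfadj ρ hρ hz, avg_fix ρ hyz]
    rw [hperp y ⟨hy1, hy2⟩] at h1
    exact inner_self_eq_zero.1 h1
  have hzw : ⟪uz, w⟫_ℝ = 0 := by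
    rw [← avg_fix ρ hw, ← avg_selfadj ρ hρ hx1, ← hy, hyy, inner_zero_left]
  set u' := u - uz with hu'
  have hu'2 : u' ∈ Inv ρ x2 := Submodule.sub_mem _ hu huz_2
  have hu'z : avg ρ z u' = 0 := by
    have : avg ρ z u' = avg ρ z u - avg ρ z uz := by
      rw [hu', avg, avg, avg, ← smul_sub, ← Finset.sum_sub_distrib]
      simp only [map_sub]
    rw [this, avg_fix ρ huz_z, ← huz, sub_self]
  have hnorm : ‖u'‖ ≤ ‖u‖ := by
    have h1 : ⟪u', uz⟫_ℝ = 0 := by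
      rw [← avg_fix ρ huz_z, ← avg_selfadj ρ hρ hz, hu'z, inner_zero_left]
    have h2 : ‖u‖ ^ 2 = ‖u'‖ ^ 2 + ‖uz‖ ^ 2 := by
      have e : u = u' + uz := by rw [hu']; abel
      have := norm_add_sq_real u' uz
      rw [← e, h1] at this
      linarith
    have h3 : ‖u'‖ ^ 2 ≤ ‖u‖ ^ 2 := by nlinarith [sq_nonneg ‖uz‖]
    exact le_of_sq_le_sq h3 (norm_nonneg _)
  have huw : ⟪u, w⟫_ℝ = ⟪avg ρ x1 u', w⟫_ℝ := by
    rw [avg_selfadj ρ hρ hx1, avg_fix ρ hw, hu', inner_sub_left, hzw, sub_zero]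
  have hterm : ∀ a : ZMod p, a ≠ 0 → ⟪ρ (x1 a) u', u'⟫_ℝ = 0 := by
    intro a ha
    have h1 : ∀ b : ZMod p, ⟪ρ (x1 a) u', u'⟫_ℝ = ⟪ρ (z (a * b)) (ρ (x1 a) u'), u'⟫_ℝ := by
      intro b
      have h2 : x1 a * x2 b = x2 b * (z (a * b) * x1 a) := by
        rw [hcomm, hz2, mul_assoc]
      calc ⟪ρ (x1 a) u', u'⟫_ℝ = ⟪ρ (x1 a) (ρ (x2 b) u'), ρ (x2 b) u'⟫_ℝ := by rw [hu'2 b]
        _ = ⟪ρ (x2 b) (ρ (z (a * b)) (ρ (x1 a) u')), ρ (x2 b) u'⟫_ℝ := by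
            rw [← hmul, h2, hmul, hmul]
        _ = ⟪ρ (z (a * b)) (ρ (x1 a) u'), u'⟫_ℝ := hρ _ _ _
    have h3 : ⟪avg ρ z (ρ (x1 a) u'), u'⟫_ℝ = ⟪ρ (x1 a) u', u'⟫_ℝ := by
      have h4 : ∑ b, ρ (z b) (ρ (x1 a) u') = ∑ b, ρ (z (a * b)) (ρ (x1 a) u') :=
        (Equiv.sum_comp (Equiv.mulLeft₀ a ha) (fun b => ρ (z b) (ρ (x1 a) u'))).symm
      rw [avg, h4, inner_smul_left, sum_inner, Finset.sum_congr rfl (fun b _ => (h1 b).symm),
        Finset.sum_const, Finset.card_univ, ZMod.card, nsmul_eq_mul]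
      simp only [conj_trivial]
      field_simp
    rw [← h3, ← hcz _ (fun c => hz1 c a), hu'z, map_zero, inner_zero_left]
  have hsq : ‖avg ρ x1 u'‖ ^ 2 = ‖u'‖ ^ 2 / p := by
    have h1 : ⟪avg ρ x1 u', avg ρ x1 u'⟫_ℝ = ⟪avg ρ x1 u', u'⟫_ℝ := by
      rw [← avg_selfadj ρ hρ hx1, avg_fix ρ (avg_mem ρ hx1 u')]
    rw [← real_inner_self_eq_norm_sq, h1, avg, inner_smul_left, sum_inner,
      Finset.sum_eq_single (0 : ZMod p) (fun a _ ha => hterm a ha) (fun h => absurd (Finset.mem_univ _) h),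
      x_zero hx1, map_one]
    simp only [conj_trivial, Module.End.one_apply, real_inner_self_eq_norm_sq]
    ring
  have h5 : ‖avg ρ x1 u'‖ = 1 / Real.sqrt p * ‖u'‖ := by
    have h6 : ‖avg ρ x1 u'‖ ^ 2 = (1 / Real.sqrt p * ‖u'‖) ^ 2 := by
      rw [hsq, mul_pow, div_pow, Real.sq_sqrt hp0.le]
      ring
    exact (sq_eq_sq₀ (norm_nonneg _) (by positivity)).1 h6
  rw [huw]
  refine (real_inner_le_norm _ _).trans ?_
  rw [h5]
  gcongr

end Loc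

end Pool.Agent.H234R2
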