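import Pool.Agent.H234R2.Dbl

set_option autoImplicit false

namespace Pool.Agent.H234R2

open Matrix

section Mat

variable {R : Type*} [CommRing R]

/-- Elementary matrices as units. -/
def Tv (i j : Fin 3) (h : i ≠ j) (r : R) : (Matrix (Fin 3) (Fin 3) R)ˣ where
  val := transvection i j r
  inv := transvection i j (-r)
  val_inv := by rw [transvection_mul_transvection_same _ _ h, add_neg_cancel, transvection_zero]
  inv_val := by rw [transvection_mul_transvection_same _ _ h, neg_add_cancel, transvection_zero]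

theorem Tv_val (i j : Fin 3) (h : i ≠ j) (r : R) :
    (Tv i j h r : Matrix (Fin 3) (Fin 3) R) = transvection i j r := rfl

theorem Tv_add (i j : Fin 3) (h : i ≠ j) (r s : R) : Tv i j h (r + s) = Tv i j h r * Tv i j h s := by
  apply Units.ext
  rw [Units.val_mul, Tv_val, Tv_val, Tv_val, transvection_mul_transvection_same _ _ h]

theorem Tv_comm {i j k : Fin 3} (hij : i ≠ j) (hjk : j ≠ k) (hik : i ≠ k) (r s : R) :
    Tv i j hij r * Tv j k hjk s = Tv i k hik (r * s) * Tv j k hjk s * Tv i j hij r := by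
  apply Units.ext
  simp only [Units.val_mul, Tv_val, transvection, mul_add, add_mul, mul_one, one_mul,
    single_mul_single_same]
  rw [single_mul_single_of_ne _ _ _ _ hik.symm, single_mul_single_of_ne _ _ _ _ hjk.symm,
    single_mul_single_of_ne _ _ _ _ hik.symm, zero_mul]
  abel

theorem Tv_comm1 {i j k : Fin 3} (hij : i ≠ j) (hik : i ≠ k) (r s : R) :
    Tv i k hik r * Tv i j hij s = Tv i j hij s * Tv i k hik r := by
  apply Units.ext
  simp only [Units.val_mul, Tv_val, transvection, mul_add, add_mul, mul_one, one_mul]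
  rw [single_mul_single_of_ne _ _ _ _ hik.symm, single_mul_single_of_ne _ _ _ _ hij.symm]
  abel

theorem Tv_comm2 {i j k : Fin 3} (hjk : j ≠ k) (hik : i ≠ k) (r s : R) :
    Tv i k hik r * Tv j k hjk s = Tv j k hjk s * Tv i k hik r := by
  apply Units.ext
  simp only [Units.val_mul, Tv_val, transvection, mul_add, add_mul, mul_one, one_mul]
  rw [single_mul_single_of_ne _ _ _ _ hjk.symm, single_mul_single_of_ne _ _ _ _ hik.symm]
  abel

theorem Tv_commutator {i j k : Fin 3} (hij : i ≠ j) (hjk : j ≠ k) (hik : i ≠ k) (r s : R) :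
    Tv i k hik (r * s) = Tv i j hij r * Tv j k hjk s * (Tv i j hij r)⁻¹ * (Tv j k hjk s)⁻¹ := by
  rw [Tv_comm hij hjk hik]
  group

end Mat

section Ex

variable (p m : ℕ) [Fact p.Prime] [NeZero m]

/-- The ring: the group algebra of the cyclic group of order `m` modulo `p`. -/
abbrev RR : Type := MonoidAlgebra (ZMod p) (Multiplicative (ZMod m))

instance : Finite (RR p m) := by
  apply Finite.of_injective (fun (f : RR p m) (i : Multiplicative (ZMod m)) => f.coeff i)
  intro f g h
  apply MonoidAlgebra.coeff_injective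
  exact DFunLike.coe_injective h

/-- The generator. -/
noncomputable def tt : RR p m := MonoidAlgebra.of (ZMod p) _ (Multiplicative.ofAdd (1 : ZMod m))

/-- The weights. -/
noncomputable def ww (i : Fin 3) : RR p m := if i = 2 then tt p m else 1

theorem ne1 : ∀ i : Fin 3, i ≠ i + 1 := by decide
theorem ne2 : ∀ i : Fin 3, i + 1 ≠ i := by decide
theorem ne3 : ∀ i : Fin 3, i + 1 ≠ i + 2 := by decide
theorem ne4 : ∀ i : Fin 3, i + 2 ≠ i := by decide

/-- The one-parameter subgroups. -/
noncomputable def xx (i : Fin 3) (a : ZMod p) : (Matrix (Fin 3) (Fin 3) (RR p m))ˣ :=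
  Tv i (i + 1) (ne1 i) (algebraMap (ZMod p) (RR p m) a * ww p m i)

/-- Their commutators. -/
noncomputable def zz (i : Fin 3) (a : ZMod p) : (Matrix (Fin 3) (Fin 3) (RR p m))ˣ :=
  Tv (i + 1) i (ne2 i) (algebraMap (ZMod p) (RR p m) a * (ww p m (i + 1) * ww p m (i + 2)))

theorem xx_1 (i : Fin 3) (a : ZMod p) : xx p m (i + 1) a =
    Tv (i + 1) (i + 2) (ne3 i) (algebraMap (ZMod p) (RR p m) a * ww p m (i + 1)) := by
  have : i + 1 + 1 = i + 2 := by revert i; decide
  unfold xx
  congr

theorem xx_2 (i : Fin 3) (a : ZMod p) : xx p m (i + 2) a =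
    Tv (i + 2) i (ne4 i) (algebraMap (ZMod p) (RR p m) a * ww p m (i + 2)) := by
  have : i + 2 + 1 = i := by revert i; decide
  unfold xx
  congr

/-- The set of generators. -/
def SS : Set (Matrix (Fin 3) (Fin 3) (RR p m))ˣ := {g | ∃ i a, g = xx p m i a}

/-- The group. -/
abbrev GG : Type := Subgroup.closure (SS p m)

theorem xx_mem (i : Fin 3) (a : ZMod p) : xx p m i a ∈ Subgroup.closure (SS p m) :=
  Subgroup.subset_closure ⟨i, a, rfl⟩

theorem xx_comm (i : Fin 3) (a b : ZMod p) : xx p m (i + 1) a * xx p m (i + 2) b =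
    zz p m i (a * b) * xx p m (i + 2) b * xx p m (i + 1) a := by
  rw [xx_1, xx_2, zz, Tv_comm (ne3 i) (ne4 i) (ne2 i)]
  congr 3
  rw [map_mul]
  ring

theorem xx_add (i : Fin 3) (a b : ZMod p) : xx p m i (a + b) = xx p m i a * xx p m i b := by
  unfold xx
  rw [map_add, add_mul, Tv_add]

theorem zz_add (i : Fin 3) (a b : ZMod p) : zz p m i (a + b) = zz p m i a * zz p m i b := by
  unfold zz
  rw [map_add, add_mul, Tv_add]

theorem zz_mem (i : Fin 3) (a : ZMod p) : zz p m i a ∈ Subgroup.closure (SS p m) := by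
  have h := xx_comm p m i a 1
  rw [mul_one] at h
  have h2 : zz p m i a = xx p m (i + 1) a * xx p m (i + 2) 1 * (xx p m (i + 1) a)⁻¹ *
      (xx p m (i + 2) 1)⁻¹ := by
    rw [h]; group
  rw [h2]
  exact Subgroup.mul_mem _ (Subgroup.mul_mem _ (Subgroup.mul_mem _ (xx_mem _ _ _ _)
    (xx_mem _ _ _ _)) (Subgroup.inv_mem _ (xx_mem _ _ _ _))) (Subgroup.inv_mem _ (xx_mem _ _ _ _))

/-- The data. -/
noncomputable def DD : HData (GG p m) p where
  x i a := ⟨xx p m i a, xx_mem p m i a⟩
  z i a := ⟨zz p m i a, zz_mem p m i a⟩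
  hx i a b := Subtype.ext (xx_add p m i a b)
  hz i a b := Subtype.ext (zz_add p m i a b)
  hcomm i a b := Subtype.ext (xx_comm p m i a b)
  hz1 i a b := by
    apply Subtype.ext
    show zz p m i a * xx p m (i + 1) b = xx p m (i + 1) b * zz p m i a
    rw [xx_1, zz, Tv_comm1]
  hz2 i a b := by
    apply Subtype.ext
    show zz p m i a * xx p m (i + 2) b = xx p m (i + 2) b * zz p m i a
    rw [xx_2, zz, Tv_comm2]
  hgen := by
    have h := Subgroup.closure_closure_coe_preimage (k := SS p m)
    rw [← h]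
    congr 1
    ext ⟨g, hg⟩
    exact ⟨fun ⟨i, a, h⟩ => ⟨i, a, congrArg Subtype.val h⟩, fun ⟨i, a, h⟩ => ⟨i, a, Subtype.ext h⟩⟩

theorem xx_one (i : Fin 3) : xx p m i 1 = Tv i (i + 1) (ne1 i) (ww p m i) := by
  unfold xx
  rw [map_one, one_mul]

theorem pow_mem (k : ℕ) : Tv 0 1 (by decide) ((tt p m) ^ k) ∈ Subgroup.closure (SS p m) := by
  have h01 : Tv 0 1 (by decide) (1 : RR p m) ∈ Subgroup.closure (SS p m) := by
    have := xx_mem p m 0 1
    rw [xx_one] at this
    exact this
  have h12 : Tv 1 2 (by decide) (1 : RR p m) ∈ Subgroup.closure (SS p m) := by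
    have := xx_mem p m 1 1
    rw [xx_one] at this
    exact this
  have h20 : Tv 2 0 (by decide) (tt p m) ∈ Subgroup.closure (SS p m) := by
    have := xx_mem p m 2 1
    rw [xx_one] at this
    exact this
  have hcm : ∀ {i j k : Fin 3} (hij : i ≠ j) (hjk : j ≠ k) (hik : i ≠ k) (r s : RR p m),
      Tv i j hij r ∈ Subgroup.closure (SS p m) → Tv j k hjk s ∈ Subgroup.closure (SS p m) →
      Tv i k hik (r * s) ∈ Subgroup.closure (SS p m) := by
    intro i j k hij hjk hik r s h1 h2
    rw [Tv_commutator hij hjk hik]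
    exact Subgroup.mul_mem _ (Subgroup.mul_mem _ (Subgroup.mul_mem _ h1 h2)
      (Subgroup.inv_mem _ h1)) (Subgroup.inv_mem _ h2)
  induction k with
  | zero => simpa using h01
  | succ k ih =>
    have h02 : Tv 0 2 (by decide) ((tt p m) ^ k * 1) ∈ Subgroup.closure (SS p m) :=
      hcm (by decide) (by decide) (by decide) _ _ ih h12
    have h21 : Tv 2 1 (by decide) (tt p m * 1) ∈ Subgroup.closure (SS p m) :=
      hcm (by decide) (by decide) (by decide) _ _ h20 h01
    rw [mul_one] at h02 h21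
    rw [pow_succ]
    exact hcm (by decide) (by decide) (by decide) _ _ h02 h21

theorem card_GG : m ≤ Nat.card (GG p m) := by
  have h1 : Function.Injective (fun a : ZMod m =>
      (⟨Tv 0 1 (by decide) ((tt p m) ^ a.val), pow_mem p m _⟩ : GG p m)) := by
    intro a b hab
    have h2 : Tv 0 1 (by decide) ((tt p m) ^ a.val) = Tv 0 1 (by decide) ((tt p m) ^ b.val) :=
      congrArg Subtype.val hab
    have h3 : transvection (0 : Fin 3) 1 ((tt p m) ^ a.val) 0 1 =
        transvection (0 : Fin 3) 1 ((tt p m) ^ b.val) 0 1 := by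
      rw [← Tv_val _ _ (by decide), ← Tv_val _ _ (by decide), h2]
    simp only [transvection, Matrix.add_apply, Matrix.single_apply_same] at h3
    have h4 := add_left_cancel h3
    have h4' : MonoidAlgebra.of (ZMod p) _ ((Multiplicative.ofAdd (1 : ZMod m)) ^ a.val) =
        MonoidAlgebra.of (ZMod p) _ ((Multiplicative.ofAdd (1 : ZMod m)) ^ b.val) := by
      rw [map_pow, map_pow]
      exact h4
    have h5 := MonoidAlgebra.of_injective h4'
    rw [← ofAdd_nsmul, ← ofAdd_nsmul] at h5
    have h6 := Multiplicative.ofAdd.injective h5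
    simpa using h6
  have := Nat.card_le_card_of_injective _ h1
  rwa [Nat.card_zmod] at this

end Ex

end Pool.Agent.H234R2
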