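import Pool.Agent.H234R2.Fin2
import Pool.Agent.H234R2.Mat

set_option autoImplicit false

namespace Pool.Agent.H234R2

section Gen

variable {G : Type*} [Group G] [Fintype G]

theorem gen_of_SP {A B : Subgroup G} {s : ℝ} (hs0 : 0 ≤ s) (hs : s < 1) (h : SP A B s) :
    A ⊔ B = ⊤ := by
  set K := A ⊔ B with hK
  have hinv : ∀ (H : Subgroup G), H ≤ K → ∀ g, ∀ a ∈ H, g * a ∈ (K : Set G) ↔ g ∈ (K : Set G) := by
    intro H hH g a ha
    constructor
    · intro h1
      have := K.mul_mem h1 (K.inv_mem (hH ha))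
      rwa [mul_inv_cancel_right] at this
    · intro h1
      exact K.mul_mem h1 (hH ha)
  have h1 := SP_sets h (K : Set G) (K : Set G) (hinv A le_sup_left) (hinv B le_sup_right)
  rw [Set.inter_self] at h1
  set n : ℝ := (Fintype.card G : ℝ) with hn
  set c : ℝ := ((K : Set G).ncard : ℝ) with hc
  have hc0 : 0 < c := by
    rw [hc]
    have : 0 < (K : Set G).ncard := (Set.ncard_pos (Set.toFinite _)).2 ⟨1, K.one_mem⟩
    exact_mod_cast this
  have h2 : (n * c - c ^ 2) ^ 2 ≤ s * (n * c - c ^ 2) ^ 2 := by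
    calc (n * c - c ^ 2) ^ 2 = (n * c - c * c) ^ 2 := by ring
      _ ≤ _ := h1
      _ = _ := by ring
  have h3 : (n * c - c ^ 2) ^ 2 = 0 := by nlinarith [sq_nonneg (n * c - c ^ 2)]
  have h4 : n * c - c ^ 2 = 0 := by simpa using h3
  have h5 : c = n := by
    have : c * (n - c) = 0 := by linarith
    rcases mul_eq_zero.1 this with h | h
    · exact absurd h hc0.ne'
    · linarith
  have h6 : (K : Set G).ncard = Nat.card G := by
    rw [Nat.card_eq_fintype_card]
    have : ((K : Set G).ncard : ℝ) = (Fintype.card G : ℝ) := h5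
    exact_mod_cast this
  have h7 : (K : Set G) = Set.univ := by
    apply Set.eq_of_subset_of_ncard_le (Set.subset_univ _)
    rw [Set.ncard_univ, h6]
  exact SetLike.coe_injective (by rw [h7]; rfl)

end Gen

/-- All the requirements for one graph. -/
def Good (D : ℕ) (V : Type) (Γ : SimpleGraph V) (o : V) (d : ℕ) : Prop :=
  Γ.Connected ∧ (∀ u v : V, ∃ φ : Γ ≃g Γ, φ u = v) ∧ (∀ v : V, (Γ.neighborSet v).ncard ≤ D) ∧
    Nat.card V ≤ 2 * {v | Γ.dist o v = d}.ncard ∧
    99 * {v | Γ.dist o v = d}.ncard ≤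
      100 * {v | Γ.dist o v = d ∧ ∀ w, Γ.Adj v w → Γ.dist o w ≠ d + 1}.ncard ∧
    19 * d ≤ 10 * Γ.diam

theorem iso_dist {V V' : Type} {Γ : SimpleGraph V} {Γ' : SimpleGraph V'} (e : Γ ≃g Γ')
    (hc : Γ.Connected) (hc' : Γ'.Connected) (u v : V) : Γ'.dist (e u) (e v) = Γ.dist u v := by
  apply le_antisymm
  · obtain ⟨p, hp⟩ := hc.exists_walk_length_eq_dist u v
    rw [← hp, ← SimpleGraph.Walk.length_map e.toHom p]
    exact SimpleGraph.dist_le _
  · obtain ⟨p, hp⟩ := hc'.exists_walk_length_eq_dist (e u) (e v)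
    rw [← hp, ← SimpleGraph.Walk.length_map e.symm.toHom p]
    have := SimpleGraph.dist_le (p.map e.symm.toHom)
    simpa using this

theorem good_transport {D : ℕ} {V V' : Type} [Finite V] [Finite V'] {Γ : SimpleGraph V} {Γ' : SimpleGraph V'}
    (e : Γ ≃g Γ') {o : V} {d : ℕ} (h : Good D V Γ o d) : Good D V' Γ' (e o) d := by
  obtain ⟨h1, h2, h3, h4, h5, h6⟩ := h
  have hc' : Γ'.Connected := e.connected_iff.1 h1
  have hd := iso_dist e h1 hc'
  have hS : {v | Γ'.dist (e o) v = d} = e '' {v | Γ.dist o v = d} := by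
    ext v
    constructor
    · intro hv
      refine ⟨e.symm v, ?_, by simp⟩
      show Γ.dist o (e.symm v) = d
      rw [← hd]
      simpa using hv
    · rintro ⟨u, hu, rfl⟩
      show Γ'.dist (e o) (e u) = d
      rw [hd]
      exact hu
  have hS' : {v | Γ'.dist (e o) v = d ∧ ∀ w, Γ'.Adj v w → Γ'.dist (e o) w ≠ d + 1} =
      e '' {v | Γ.dist o v = d ∧ ∀ w, Γ.Adj v w → Γ.dist o w ≠ d + 1} := by
    ext v
    constructor
    · rintro ⟨hv, hw⟩
      refine ⟨e.symm v, ⟨?_, fun w hw' => ?_⟩, by simp⟩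
      · rw [← hd]
        simpa using hv
      · rw [← hd]
        apply hw
        have := e.map_adj_iff.2 hw'
        simpa using this
    · rintro ⟨u, ⟨hu, hw⟩, rfl⟩
      refine ⟨by rw [hd]; exact hu, fun w hw' => ?_⟩
      have h7 : Γ.Adj u (e.symm w) := by
        rw [← e.map_adj_iff]
        simpa using hw'
      have := hw _ h7
      rw [← hd] at this
      simpa using this
  refine ⟨hc', ?_, ?_, ?_, ?_, ?_⟩
  · intro u v
    obtain ⟨φ, hφ⟩ := h2 (e.symm u) (e.symm v)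
    refine ⟨(e.symm.trans φ).trans e, ?_⟩
    show e (φ (e.symm u)) = v
    rw [hφ]
    simp
  · intro v
    have : Γ'.neighborSet v = e '' Γ.neighborSet (e.symm v) := by
      ext w
      constructor
      · intro hw
        refine ⟨e.symm w, ?_, by simp⟩
        show Γ.Adj (e.symm v) (e.symm w)
        exact e.symm.map_adj_iff.2 hw
      · rintro ⟨u, hu, rfl⟩
        show Γ'.Adj v (e u)
        have := e.map_adj_iff.2 hu
        simpa using this
    rw [this, Set.ncard_image_of_injective _ e.injective]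
    exact h3 _
  · rw [hS, Set.ncard_image_of_injective _ e.injective, ← Nat.card_congr e.toEquiv]
    exact h4
  · rw [hS, hS', Set.ncard_image_of_injective _ e.injective,
      Set.ncard_image_of_injective _ e.injective]
    exact h5
  · have : Nonempty V := ⟨o⟩
    have : Nonempty V' := ⟨e o⟩
    obtain ⟨u, v, huv⟩ := Γ.exists_dist_eq_diam
    have h7 : Γ'.dist (e u) (e v) ≤ Γ'.diam :=
      SimpleGraph.dist_le_diam (SimpleGraph.connected_iff_ediam_ne_top.1 hc')
    rw [hd, huv] at h7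
    omega

theorem exists_good : ∃ D : ℕ, ∀ n : ℕ, ∃ (V : Type) (_ : Finite V) (Γ : SimpleGraph V) (o : V) (d : ℕ),
    n ≤ Nat.card V ∧ Good D V Γ o d := by
  obtain ⟨k0, hk0⟩ : ∃ k0 : ℕ, (k0 : ℝ) = 24 * 10 ^ 6 := ⟨24000000, by norm_num⟩
  obtain ⟨d0, hd0⟩ : ∃ d0 : ℕ, d0 = 2000 := ⟨_, rfl⟩
  obtain ⟨p, hp1, hp⟩ := Nat.exists_infinite_primes (10 ^ 24)
  haveI : Fact p.Prime := ⟨hp⟩
  have hp1' : (10 : ℝ) ^ 24 ≤ p := by exact_mod_cast hp1
  have hp0 : (0 : ℝ) < p := lt_of_lt_of_le (by norm_num) hp1'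
  have hsq : (10 : ℝ) ^ 12 ≤ Real.sqrt p := by
    apply Real.le_sqrt_of_sq_le
    have e : ((10 : ℝ) ^ 12) ^ 2 = (10 : ℝ) ^ 24 := by norm_num
    rw [e]
    exact hp1'
  set ε : ℝ := 1 / Real.sqrt p with hε
  have hε0 : 0 < ε := by positivity
  have hε1 : ε ≤ 1 / 10 ^ 12 := by
    rw [hε]
    exact one_div_le_one_div_of_le (by norm_num) hsq
  set σ : ℝ := 2 * (ε / (1 - ε)) with hσ
  have h1ε : 0 < 1 - ε := by
    have : (1 : ℝ) / 10 ^ 12 < 1 := by norm_num
    linarith
  have hσ0 : 0 < σ := by positivity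
  have hσ1 : σ ≤ 3 / 10 ^ 12 := by
    have : ε / (1 - ε) ≤ (3 / 2) / 10 ^ 12 := by
      rw [div_le_iff₀ h1ε]
      nlinarith
    rw [hσ]
    linarith
  set q : ℕ := p ^ 6 with hq
  refine ⟨(2 * q) ^ k0 * 3, fun n => ?_⟩
  obtain ⟨m, hm⟩ := exists_nat_gt (max ((q : ℝ) / σ) (max (2 * (2 * (q : ℝ)) ^ d0) n))
  have hm1 : (q : ℝ) / σ < m := lt_of_le_of_lt (le_max_left _ _) hm
  have hm2 : 2 * (2 * (q : ℝ)) ^ d0 < m :=
    lt_of_le_of_lt ((le_max_left _ _).trans (le_max_right _ _)) hm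
  have hm3 : (n : ℝ) < m := lt_of_le_of_lt ((le_max_right _ _).trans (le_max_right _ _)) hm
  have hm0 : m ≠ 0 := by
    rintro rfl
    have : (0 : ℝ) ≤ n := by positivity
    push_cast at hm3
    linarith
  haveI : NeZero m := ⟨hm0⟩
  haveI : Fintype (GG p m) := Fintype.ofFinite _
  set D := DD p m
  have hSP1 : SP (KK D 0) (KK D 1) (σ ^ 2) := SP_of_data D hp.one_lt
  have hSP : SP ((KK D 0).prod (KK D 1)) ((KK D 1).prod (KK D 0)) (σ ^ 2) :=
    SP_double (sq_nonneg _) hSP1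
  set A := (KK D 0).prod (KK D 1) with hA
  set B := (KK D 1).prod (KK D 0) with hB
  have hgen : A ⊔ B = ⊤ := gen_of_SP (sq_nonneg _) (by nlinarith) hSP
  have hsw : Swap A B (MulEquiv.prodComm : GG p m × GG p m ≃* GG p m × GG p m) := by
    constructor
    · rintro ⟨x, y⟩
      simp only [MulEquiv.coe_prodComm, Prod.swap_prod_mk, hA, hB, Subgroup.mem_prod]
      exact and_comm
    · rintro ⟨x, y⟩
      simp only [MulEquiv.coe_prodComm, Prod.swap_prod_mk, hA, hB, Subgroup.mem_prod]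
      exact and_comm
  have hcA : Nat.card A ≤ q := by
    rw [hA, Nat.card_congr (Subgroup.prodEquiv _ _).toEquiv, Nat.card_prod, hq]
    calc _ ≤ p ^ 3 * p ^ 3 := Nat.mul_le_mul (KK_card D 0) (KK_card D 1)
      _ = p ^ 6 := by ring
  have hcB : Nat.card B ≤ q := by
    rw [hB, Nat.card_congr (Subgroup.prodEquiv _ _).toEquiv, Nat.card_prod, hq]
    calc _ ≤ p ^ 3 * p ^ 3 := Nat.mul_le_mul (KK_card D 1) (KK_card D 0)
      _ = p ^ 6 := by ring
  have hcG : m ≤ Fintype.card (GG p m × GG p m) := by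
    rw [Fintype.card_prod]
    have h1 := card_GG p m
    rw [Nat.card_eq_fintype_card] at h1
    have h2 : 0 < Fintype.card (GG p m) := Fintype.card_pos
    nlinarith
  have hcG' : (m : ℝ) ≤ (Fintype.card (GG p m × GG p m) : ℝ) := by exact_mod_cast hcG
  obtain ⟨d, k, hd, hd1, hk1, hkk, h95, hbad⟩ := core hsw hgen hσ0 hSP
    (α := 1 / 10 ^ 6) (by norm_num) (k0 := k0) (by rw [hk0]; norm_num)
    (by rw [hk0]; nlinarith) (by linarith) (q := q) (d0 := d0) hcA hcB
    (by
      rw [div_lt_iff₀ hσ0] at hm1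
      nlinarith)
    (by linarith)
  set M := (19 * d + 9) / 10 with hM
  have hdM : 2000 ≤ d := by omega
  haveI : NeZero M := ⟨by omega⟩
  have hfin := final_counts A B k M hgen hdM (by omega) (by omega) h95 hbad
  refine ⟨VV (GG p m × GG p m) k M, inferInstance, Gr A B k M, v0 k M, d, ?_, hfin.1,
    Gr_trans A B k M, ?_, hfin.2.1, hfin.2.2.1, hfin.2.2.2⟩
  · rw [Nat.card_prod, Nat.card_pi, Nat.card_zmod]
    simp only [Nat.card_eq_fintype_card, Finset.prod_const, Finset.card_univ, Fintype.card_fin]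
    have hnm : n < m := by exact_mod_cast hm3
    have hpow : Fintype.card (GG p m × GG p m) ≤ Fintype.card (GG p m × GG p m) ^ k :=
      Nat.le_self_pow (by omega) _
    have hM1 : 1 ≤ 2 * M := by omega
    calc n ≤ Fintype.card (GG p m × GG p m) ^ k := by omega
      _ ≤ _ := Nat.le_mul_of_pos_right _ hM1
  · intro v
    refine (Gr_deg A B k M hcA hcB v).trans ?_
    apply Nat.mul_le_mul_right
    apply Nat.pow_le_pow_right _ hkk
    have : 0 < q := by rw [hq]; exact pow_pos hp.pos 6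
    omega

end Pool.Agent.H234R2
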