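import Pool.Agent.H234R2.TD2
import Pool.Agent.H234R2.Loc

set_option autoImplicit false

namespace Pool.Agent.H234R2

open scoped InnerProductSpace
open Module

/-- Three one-parameter subgroups modulo `p` generating `G`, any two of which generate a
(quotient of a) Heisenberg group. -/
structure HData (G : Type*) [Group G] (p : ℕ) where
  x : Fin 3 → ZMod p → G
  z : Fin 3 → ZMod p → G
  hx : ∀ i a b, x i (a + b) = x i a * x i b
  hz : ∀ i a b, z i (a + b) = z i a * z i b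
  hcomm : ∀ i a b, x (i + 1) a * x (i + 2) b = z i (a * b) * x (i + 2) b * x (i + 1) a
  hz1 : ∀ i a b, z i a * x (i + 1) b = x (i + 1) b * z i a
  hz2 : ∀ i a b, z i a * x (i + 2) b = x (i + 2) b * z i a
  hgen : Subgroup.closure {g | ∃ i a, g = x i a} = ⊤

section Reg

variable {G : Type*} [Group G] [Fintype G]

/-- The right regular representation. -/
noncomputable def reg : G →* (EuclideanSpace ℝ G →ₗ[ℝ] EuclideanSpace ℝ G) where
  toFun g :=
    { toFun := fun f => WithLp.toLp 2 (fun y => f (y * g))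
      map_add' := by intro f h; ext y; simp
      map_smul' := by intro c f; ext y; simp }
  map_one' := by ext f y; simp
  map_mul' g h := by ext f y; simp [mul_assoc]

theorem reg_apply (g : G) (f : EuclideanSpace ℝ G) (y : G) : reg g f y = f (y * g) := rfl

theorem reg_inner (g : G) (f h : EuclideanSpace ℝ G) : ⟪reg g f, reg g h⟫_ℝ = ⟪f, h⟫_ℝ := by
  simp only [PiLp.inner_apply, reg_apply]
  exact Equiv.sum_comp (Equiv.mulRight g) (fun y => ⟪f y, h y⟫_ℝ)

/-- Mean zero functions. -/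
def Z0 (G : Type*) [Group G] [Fintype G] : Submodule ℝ (EuclideanSpace ℝ G) where
  carrier := {f | ∑ y, f y = 0}
  zero_mem' := by simp
  add_mem' := by
    intro f h hf hh
    simp only [Set.mem_ofPred_eq, PiLp.add_apply, Finset.sum_add_distrib] at *
    rw [hf, hh, add_zero]
  smul_mem' := by
    intro c f hf
    simp only [Set.mem_ofPred_eq, PiLp.smul_apply, smul_eq_mul, ← Finset.mul_sum] at *
    rw [hf, mul_zero]

theorem mem_Z0 (f : EuclideanSpace ℝ G) : f ∈ Z0 G ↔ ∑ y, f y = 0 := Iff.rfl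

variable {p : ℕ} [Fact p.Prime] (D : HData G p)

/-- The three subspaces. -/
noncomputable def UU (i : Fin 3) : Submodule ℝ (EuclideanSpace ℝ G) := Inv reg (D.x i) ⊓ Z0 G

theorem const_mem_Inv (c : ℝ) (i : Fin 3) : (WithLp.toLp 2 (fun _ : G => c)) ∈ Inv reg (D.x i) := by
  intro a
  ext y
  rfl

theorem UU_eps (i : Fin 3) : EpsOrth (1 / Real.sqrt p) (UU D (i + 1)) (UU D (i + 2)) := by
  apply epsOrth_symm
  intro u hu w hw hperp _
  apply local_gap reg reg_inner (D.hx (i + 1)) (D.hx (i + 2)) (D.hz i) (D.hcomm i) (D.hz1 i)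
    (D.hz2 i) u hu.1 w hw.1
  intro y hy
  set m : ℝ := (∑ g, y g) / (Fintype.card G : ℝ) with hm
  set c : EuclideanSpace ℝ G := WithLp.toLp 2 (fun _ : G => m) with hc
  have hcard : (Fintype.card G : ℝ) ≠ 0 := by exact_mod_cast Fintype.card_ne_zero
  have h0 : y - c ∈ Z0 G := by
    rw [mem_Z0]
    simp only [PiLp.sub_apply, hc, Finset.sum_sub_distrib, Finset.sum_const, Finset.card_univ,
      nsmul_eq_mul]
    rw [hm]
    field_simp
    ring
  have h1 : y - c ∈ UU D (i + 2) ⊓ UU D (i + 1) :=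
    ⟨⟨Submodule.sub_mem _ hy.2 (const_mem_Inv D m (i + 2)), h0⟩,
      ⟨Submodule.sub_mem _ hy.1 (const_mem_Inv D m (i + 1)), h0⟩⟩
  have h2 := hperp _ h1
  have h3 : ⟪u, c⟫_ℝ = 0 := by
    have h4 : ∑ g, u g = 0 := hu.2
    simp only [PiLp.inner_apply, hc, RCLike.inner_apply, conj_trivial]
    rw [← Finset.mul_sum, h4, mul_zero]
  rw [inner_sub_right, h3, sub_zero] at h2
  exact h2

theorem UU_bot : UU D 0 ⊓ (UU D 1 ⊓ UU D 2) = ⊥ := by
  rw [eq_bot_iff]
  rintro f ⟨h0, h1, h2⟩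
  have hall : ∀ (i : Fin 3) (a : ZMod p), reg (D.x i a) f = f := by
    intro i a
    fin_cases i
    · exact h0.1 a
    · exact h1.1 a
    · exact h2.1 a
  have hG : ∀ g : G, reg g f = f := by
    intro g
    have hg : g ∈ Subgroup.closure {g | ∃ i a, g = D.x i a} := by rw [D.hgen]; trivial
    induction hg using Subgroup.closure_induction with
    | mem g hg =>
      obtain ⟨i, a, rfl⟩ := hg
      exact hall i a
    | one => rw [map_one]; rfl
    | mul g h _ _ hg hh =>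
      rw [map_mul]
      show reg g (reg h f) = f
      rw [hh, hg]
    | inv g _ hg =>
      have : reg g⁻¹ (reg g f) = f := by
        rw [← Module.End.mul_apply, ← map_mul, inv_mul_cancel, map_one]; rfl
      rwa [hg] at this
  have hconst : ∀ g, f g = f 1 := by
    intro g
    have := congrArg (fun F : EuclideanSpace ℝ G => F 1) (hG g)
    simp only [reg_apply, one_mul] at this
    exact this
  have hsum : ∑ g, f g = 0 := h0.2
  rw [Finset.sum_congr rfl (fun g _ => hconst g), Finset.sum_const, Finset.card_univ,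
    nsmul_eq_mul] at hsum
  have hcard : (Fintype.card G : ℝ) ≠ 0 := by exact_mod_cast Fintype.card_ne_zero
  rw [Submodule.mem_bot]
  ext g
  rw [hconst g]
  simpa [hcard] using hsum

/-- The spectral gap property: squares version. -/
def SP (A B : Subgroup G) (s : ℝ) : Prop :=
  ∀ f h : G → ℝ, (∀ g, ∀ a ∈ A, f (g * a) = f g) → (∀ g, ∀ b ∈ B, h (g * b) = h g) →
    ∑ g, f g = 0 → (∑ g, f g * h g) ^ 2 ≤ s * (∑ g, f g ^ 2) * (∑ g, h g ^ 2)

theorem SP_of_data (hp : 1 < p) :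
    SP (Subgroup.closure {g | ∃ a, g = D.x 1 a ∨ g = D.x 2 a})
      (Subgroup.closure {g | ∃ a, g = D.x 2 a ∨ g = D.x 0 a})
      ((2 * ((1 / Real.sqrt p) / (1 - 1 / Real.sqrt p))) ^ 2) := by
  intro f h hf hh hsum
  have hε0 : 0 ≤ 1 / Real.sqrt p := by positivity
  have hε1 : 1 / Real.sqrt p < 1 := by
    rw [div_lt_one (by positivity)]
    rw [Real.lt_sqrt (by norm_num)]
    norm_num
    exact hp
  set σ : ℝ := 2 * ((1 / Real.sqrt p) / (1 - 1 / Real.sqrt p)) with hσ
  have hσ0 : 0 ≤ σ := by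
    have : 0 < 1 - 1 / Real.sqrt p := by linarith
    positivity
  set m : ℝ := (∑ g, h g) / (Fintype.card G : ℝ) with hm
  have hcard : (Fintype.card G : ℝ) ≠ 0 := by exact_mod_cast Fintype.card_ne_zero
  have hcard0 : 0 < (Fintype.card G : ℝ) := lt_of_le_of_ne (by positivity) hcard.symm
  set F : EuclideanSpace ℝ G := WithLp.toLp 2 f with hF
  set H : EuclideanSpace ℝ G := WithLp.toLp 2 (fun g => h g - m) with hH
  have hsumh : ∑ g, (h g - m) = 0 := by
    rw [Finset.sum_sub_distrib, Finset.sum_const, Finset.card_univ, nsmul_eq_mul, hm]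
    field_simp
    ring
  have hFm : F ∈ UU D 1 ⊓ UU D 2 := by
    refine ⟨⟨fun a => ?_, hsum⟩, ⟨fun a => ?_, hsum⟩⟩
    · ext y
      exact hf y _ (Subgroup.subset_closure ⟨a, Or.inl rfl⟩)
    · ext y
      exact hf y _ (Subgroup.subset_closure ⟨a, Or.inr rfl⟩)
  have hHm : H ∈ UU D 2 ⊓ UU D 0 := by
    refine ⟨⟨fun a => ?_, hsumh⟩, ⟨fun a => ?_, hsumh⟩⟩
    · ext y
      simp only [hH, reg_apply]
      rw [hh y _ (Subgroup.subset_closure ⟨a, Or.inl rfl⟩)]
    · ext y
      simp only [hH, reg_apply]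
      rw [hh y _ (Subgroup.subset_closure ⟨a, Or.inr rfl⟩)]
  have h1 := trickle hε0 hε1 (UU D) (UU_eps D) (UU_bot D) hFm hHm
  have h2 := trickle hε0 hε1 (UU D) (UU_eps D) (UU_bot D) hFm (Submodule.neg_mem _ hHm)
  rw [inner_neg_right, norm_neg] at h2
  have hin : ⟪F, H⟫_ℝ = ∑ g, f g * h g := by
    simp only [PiLp.inner_apply, hF, hH, RCLike.inner_apply, conj_trivial, sub_mul]
    rw [Finset.sum_sub_distrib, ← Finset.mul_sum, hsum, mul_zero, sub_zero]
    exact Finset.sum_congr rfl fun g _ => mul_comm _ _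
  have hnF : ‖F‖ ^ 2 = ∑ g, f g ^ 2 := by
    rw [EuclideanSpace.norm_sq_eq]
    simp [hF]
  have hnH : ‖H‖ ^ 2 ≤ ∑ g, h g ^ 2 := by
    rw [EuclideanSpace.norm_sq_eq]
    simp only [hH, Real.norm_eq_abs, sq_abs]
    have e : ∑ g, (h g - m) ^ 2 = ∑ g, h g ^ 2 - Fintype.card G * m ^ 2 := by
      have : ∀ g, (h g - m) ^ 2 = h g ^ 2 - 2 * m * h g + m ^ 2 := fun g => by ring
      simp only [this, Finset.sum_add_distrib, Finset.sum_sub_distrib, Finset.sum_const,
        Finset.card_univ, nsmul_eq_mul, ← Finset.mul_sum]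
      have h4 : ∑ g, h g = Fintype.card G * m := by rw [hm]; field_simp
      rw [h4]; ring
    rw [e]
    nlinarith [sq_nonneg m]
  rw [← hin, ← hnF]
  have habs : |⟪F, H⟫_ℝ| ≤ σ * ‖F‖ * ‖H‖ := abs_le.2 ⟨by linarith, h1⟩
  calc ⟪F, H⟫_ℝ ^ 2 = |⟪F, H⟫_ℝ| ^ 2 := (sq_abs _).symm
    _ ≤ (σ * ‖F‖ * ‖H‖) ^ 2 := by gcongr
    _ = σ ^ 2 * ‖F‖ ^ 2 * ‖H‖ ^ 2 := by ring
    _ ≤ σ ^ 2 * ‖F‖ ^ 2 * ∑ g, h g ^ 2 := by gcongr

end Reg

end Pool.Agent.H234R2
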