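import Mathlib

/-! Trickling down for three subspaces. -/

set_option autoImplicit false

namespace Pool.Agent.H234R2

open scoped InnerProductSpace
open Module

section TD

variable {V : Type*} [NormedAddCommGroup V] [InnerProductSpace ℝ V] [FiniteDimensional ℝ V]

/-- The subspaces `U`, `U'` are `ε`-orthogonal relative to their intersection. -/
def EpsOrth (ε : ℝ) (U U' : Submodule ℝ V) : Prop :=
  ∀ u ∈ U, ∀ w ∈ U', (∀ y ∈ U ⊓ U', ⟪u, y⟫_ℝ = 0) → (∀ y ∈ U ⊓ U', ⟪w, y⟫_ℝ = 0) →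
    ⟪u, w⟫_ℝ ≤ ε * ‖u‖ * ‖w‖

theorem epsOrth_symm {ε : ℝ} {U U' : Submodule ℝ V} (h : EpsOrth ε U U') : EpsOrth ε U' U := by
  intro u hu w hw h1 h2
  rw [real_inner_comm]
  have := h w hw u hu (fun y hy => h2 y ⟨hy.2, hy.1⟩) (fun y hy => h1 y ⟨hy.2, hy.1⟩)
  linarith [mul_right_comm ε ‖w‖ ‖u‖]

/-- The local inequality. -/
theorem local_ineq {ε : ℝ} (hε : 0 ≤ ε) {U U' : Submodule ℝ V} (h : EpsOrth ε U U')
    {x y : V} (hx : x ∈ U) (hy : y ∈ U') :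
    2 * ⟪x, y⟫_ℝ ≤ (1 - ε) / 2 * ‖(U ⊓ U').starProjection (x + y)‖ ^ 2 +
      ε * (‖x‖ ^ 2 + ‖y‖ ^ 2) := by
  set W := U ⊓ U' with hW
  set P := W.starProjection with hP
  have hPx : P x ∈ W := Submodule.starProjection_apply_mem _ _
  have hPy : P y ∈ W := Submodule.starProjection_apply_mem _ _
  have ox : ∀ z ∈ W, ⟪x - P x, z⟫_ℝ = 0 := fun z hz => Submodule.starProjection_inner_eq_zero _ _ hz
  have oy : ∀ z ∈ W, ⟪y - P y, z⟫_ℝ = 0 := fun z hz => Submodule.starProjection_inner_eq_zero _ _ hz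
  have h1 := h (x - P x) (U.sub_mem hx hPx.1) (y - P y) (U'.sub_mem hy hPy.2) ox oy
  have nx : ‖x‖ ^ 2 = ‖P x‖ ^ 2 + ‖x - P x‖ ^ 2 := by
    have e : x = P x + (x - P x) := by abel
    have := norm_add_sq_real (P x) (x - P x)
    rw [← e, real_inner_comm, ox _ hPx] at this
    linarith
  have ny : ‖y‖ ^ 2 = ‖P y‖ ^ 2 + ‖y - P y‖ ^ 2 := by
    have e : y = P y + (y - P y) := by abel
    have := norm_add_sq_real (P y) (y - P y)
    rw [← e, real_inner_comm, oy _ hPy] at this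
    linarith
  have hxy : ⟪x, y⟫_ℝ = ⟪P x, P y⟫_ℝ + ⟪x - P x, y - P y⟫_ℝ := by
    have a1 := ox _ hPy
    have a2 := oy _ hPx
    rw [real_inner_comm] at a2
    simp only [inner_sub_left, inner_sub_right] at a1 a2 ⊢
    linarith
  have hadd : ‖P (x + y)‖ ^ 2 = ‖P x‖ ^ 2 + 2 * ⟪P x, P y⟫_ℝ + ‖P y‖ ^ 2 := by
    rw [map_add]
    exact norm_add_sq_real _ _
  have hsub := norm_sub_sq_real (P x) (P y)
  have hnn : 0 ≤ ‖P x - P y‖ ^ 2 := sq_nonneg _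
  have h2 : 2 * (ε * ‖x - P x‖ * ‖y - P y‖) ≤ ε * (‖x - P x‖ ^ 2 + ‖y - P y‖ ^ 2) := by
    nlinarith [sq_nonneg (‖x - P x‖ - ‖y - P y‖)]
  rw [hadd, hxy]
  nlinarith [norm_nonneg (P x), norm_nonneg (P y)]

end TD

end Pool.Agent.H234R2
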