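import Pool.Agent.H234R2.TD

set_option autoImplicit false

namespace Pool.Agent.H234R2

open scoped InnerProductSpace
open Module

section TD2

variable {V : Type*} [NormedAddCommGroup V] [InnerProductSpace ℝ V] [FiniteDimensional ℝ V]

/-- The three vertex spaces. -/
def WW (U : Fin 3 → Submodule ℝ V) (i : Fin 3) : Submodule ℝ V := U (i + 1) ⊓ U (i + 2)

/-- The weighted adjacency operator. -/
noncomputable def TT (U : Fin 3 → Submodule ℝ V) :
    PiLp 2 (fun _ : Fin 3 => V) →ₗ[ℝ] PiLp 2 (fun _ : Fin 3 => V) where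
  toFun x := WithLp.toLp 2 (fun i => (1 / 2 : ℝ) • (WW U i).starProjection
    ((WW U (i + 1)).starProjection (x (i + 1)) + (WW U (i + 2)).starProjection (x (i + 2))))
  map_add' x y := by
    ext i
    simp only [PiLp.add_apply, map_add, smul_add]
    abel
  map_smul' c x := by
    ext i
    simp only [PiLp.smul_apply, map_smul, RingHom.id_apply, smul_add, map_add, smul_comm c]

theorem TT_apply (U : Fin 3 → Submodule ℝ V) (x : PiLp 2 (fun _ : Fin 3 => V)) (i : Fin 3) :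
    TT U x i = (1 / 2 : ℝ) • (WW U i).starProjection
    ((WW U (i + 1)).starProjection (x (i + 1)) + (WW U (i + 2)).starProjection (x (i + 2))) := rfl

theorem TT_symm (U : Fin 3 → Submodule ℝ V) : (TT U).IsSymmetric := by
  intro x y
  simp only [PiLp.inner_apply, TT_apply, Fin.sum_univ_three, inner_smul_left, inner_smul_right,
    inner_add_right, inner_add_left, map_add, Submodule.inner_starProjection_left_eq_right,
    map_one, map_div₀, map_ofNat, smul_add]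
  have e1 : (0 : Fin 3) + 1 = 1 := rfl
  have e2 : (0 : Fin 3) + 2 = 2 := rfl
  have e3 : (1 : Fin 3) + 1 = 2 := rfl
  have e4 : (1 : Fin 3) + 2 = 0 := rfl
  have e5 : (2 : Fin 3) + 1 = 0 := rfl
  have e6 : (2 : Fin 3) + 2 = 1 := rfl
  simp only [e1, e2, e3, e4, e5, e6]
  ring

theorem rayleigh {ε : ℝ} (h0 : 0 ≤ ε) (h1 : ε < 1) (U : Fin 3 → Submodule ℝ V)
    (hU : ∀ i : Fin 3, EpsOrth ε (U (i + 1)) (U (i + 2)))
    (hbot : U 0 ⊓ (U 1 ⊓ U 2) = ⊥) (x : PiLp 2 (fun _ : Fin 3 => V)) :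
    ⟪TT U x, x⟫_ℝ ≤ ε / (1 - ε) * ‖x‖ ^ 2 := by
  by_contra hcon
  push Not at hcon
  have hx0 : x ≠ 0 := by
    rintro rfl
    simp at hcon
  have : Nontrivial (PiLp 2 (fun _ : Fin 3 => V)) := ⟨⟨x, 0, hx0⟩⟩
  have hev := (TT_symm U).hasEigenvalue_iSup_of_finiteDimensional
  set μ : ℝ := ⨆ z : { z : PiLp 2 (fun _ : Fin 3 => V) // z ≠ 0 },
    RCLike.re ⟪TT U z, (z : PiLp 2 (fun _ : Fin 3 => V))⟫_ℝ / ‖(z : PiLp 2 (fun _ : Fin 3 => V))‖ ^ 2 with hμdef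
  have hbdd : BddAbove (Set.range fun z : { z : PiLp 2 (fun _ : Fin 3 => V) // z ≠ 0 } =>
      RCLike.re ⟪TT U z, (z : PiLp 2 (fun _ : Fin 3 => V))⟫_ℝ / ‖(z : PiLp 2 (fun _ : Fin 3 => V))‖ ^ 2) := by
    refine ⟨‖LinearMap.toContinuousLinearMap (TT U)‖, ?_⟩
    rintro _ ⟨z, rfl⟩
    have hz : 0 < ‖(z : PiLp 2 (fun _ : Fin 3 => V))‖ := norm_pos_iff.2 z.2
    rw [div_le_iff₀ (by positivity)]
    simp only [RCLike.re_to_real]
    refine (real_inner_le_norm _ _).trans ?_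
    have := (LinearMap.toContinuousLinearMap (TT U)).le_opNorm (z : PiLp 2 (fun _ : Fin 3 => V))
    simp only [LinearMap.coe_toContinuousLinearMap'] at this
    nlinarith [norm_nonneg (TT U (z : PiLp 2 (fun _ : Fin 3 => V)))]
  have hμ : ε / (1 - ε) < μ := by
    refine lt_of_lt_of_le ?_ (le_ciSup hbdd ⟨x, hx0⟩)
    have hz : 0 < ‖x‖ := norm_pos_iff.2 hx0
    rw [lt_div_iff₀ (by positivity)]
    exact hcon
  obtain ⟨v, hv⟩ := hev.exists_hasEigenvector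
  have hv0 : v ≠ 0 := hv.2
  have hTv : TT U v = μ • v := hv.apply_eq_smul
  clear_value μ
  clear hbdd hev hμdef
  have hε1 : 0 < 1 - ε := by linarith
  have hμ0 : 0 < μ := lt_of_le_of_lt (by positivity) hμ
  have hcomp : ∀ i, TT U v i = μ • v i := fun i => by rw [hTv]; rfl
  have hmem : ∀ i, v i ∈ WW U i := by
    intro i
    have h2 : v i = μ⁻¹ • TT U v i := by
      rw [hcomp, smul_smul, inv_mul_cancel₀ hμ0.ne', one_smul]
    rw [h2, TT_apply]
    exact Submodule.smul_mem _ _ (Submodule.smul_mem _ _ (Submodule.starProjection_apply_mem _ _))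
  have hproj : ∀ i, (WW U i).starProjection (v i) = v i := fun i =>
    Submodule.starProjection_eq_self_iff.2 (hmem i)
  have hS : ∀ i, (WW U i).starProjection (v (i + 1) + v (i + 2)) = (2 * μ) • v i := by
    intro i
    have h3 := hcomp i
    rw [TT_apply, hproj, hproj] at h3
    rw [mul_smul, ← h3, smul_smul]
    norm_num
  have E1 : ∀ i : Fin 3, i + 2 + 2 = i + 1 := by decide
  have E2 : ∀ i : Fin 3, i + 1 + 1 = i + 2 := by decide
  -- the local inequalities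
  have hloc : ∀ i : Fin 3, 2 * ⟪v (i + 2), v (i + 1)⟫_ℝ ≤ 2 * (1 - ε) * μ ^ 2 * ‖v i‖ ^ 2 +
      ε * (‖v (i + 2)‖ ^ 2 + ‖v (i + 1)‖ ^ 2) := by
    intro i
    have ha : v (i + 2) ∈ U (i + 1) := by
      have h4 : v (i + 2) ∈ U (i + 2 + 1) ⊓ U (i + 2 + 2) := hmem (i + 2)
      rw [E1] at h4
      exact h4.2
    have hb : v (i + 1) ∈ U (i + 2) := by
      have h4 : v (i + 1) ∈ U (i + 1 + 1) ⊓ U (i + 1 + 2) := hmem (i + 1)
      rw [E2] at h4
      exact h4.1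
    have h5 := local_ineq h0 (hU i) ha hb
    have h6 : (U (i + 1) ⊓ U (i + 2)).starProjection (v (i + 2) + v (i + 1)) = (2 * μ) • v i := by
      rw [add_comm (v (i + 2))]; exact hS i
    rw [h6, norm_smul, Real.norm_eq_abs, abs_of_pos (by positivity)] at h5
    nlinarith
  -- the sum of the inner products
  have hsum : ∀ i : Fin 3, ⟪v (i + 1), v i⟫_ℝ + ⟪v (i + 2), v i⟫_ℝ = 2 * μ * ‖v i‖ ^ 2 := by
    intro i
    rw [← inner_add_left]
    conv_lhs => rw [← hproj i]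
    rw [← Submodule.inner_starProjection_left_eq_right, hS, inner_smul_left,
      real_inner_self_eq_norm_sq]
    simp
  have l0 := hloc 0
  have l1 := hloc 1
  have l2 := hloc 2
  have s0 := hsum 0
  have s1 := hsum 1
  have s2 := hsum 2
  have e1 : (0 : Fin 3) + 1 = 1 := rfl
  have e2 : (0 : Fin 3) + 2 = 2 := rfl
  have e3 : (1 : Fin 3) + 1 = 2 := rfl
  have e4 : (1 : Fin 3) + 2 = 0 := rfl
  have e5 : (2 : Fin 3) + 1 = 0 := rfl
  have e6 : (2 : Fin 3) + 2 = 1 := rfl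
  simp only [e1, e2, e3, e4, e5, e6] at l0 l1 l2 s0 s1 s2
  have c01 := real_inner_comm (v 0) (v 1)
  have c02 := real_inner_comm (v 0) (v 2)
  have c12 := real_inner_comm (v 1) (v 2)
  set N := ‖v 0‖ ^ 2 + ‖v 1‖ ^ 2 + ‖v 2‖ ^ 2 with hN
  have hNpos : 0 < N := by
    by_contra hN0
    push Not at hN0
    have n0 := sq_nonneg ‖v 0‖
    have n1 := sq_nonneg ‖v 1‖
    have n2 := sq_nonneg ‖v 2‖
    apply hv0
    ext i
    have : ∀ i, ‖v i‖ ^ 2 = 0 := by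
      intro i; fin_cases i
      · show ‖v 0‖ ^ 2 = 0
        linarith
      · show ‖v 1‖ ^ 2 = 0
        linarith
      · show ‖v 2‖ ^ 2 = 0
        linarith
    have h7 := this i
    rw [sq_eq_zero_iff, norm_eq_zero] at h7
    simpa using h7
  have hquad : 0 ≤ (μ - 1) * ((1 - ε) * μ - ε) := by
    have : μ * N ≤ (1 - ε) * μ ^ 2 * N + ε * N := by
      rw [hN]; nlinarith
    have h8 : 0 ≤ ((μ - 1) * ((1 - ε) * μ - ε)) * N := by nlinarith
    exact nonneg_of_mul_nonneg_left h8 hNpos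
  have hgt : 0 < (1 - ε) * μ - ε := by
    rw [div_lt_iff₀ hε1] at hμ
    linarith
  have hμ1 : 1 ≤ μ := by
    by_contra hlt
    push Not at hlt
    nlinarith
  have d01 := norm_sub_sq_real (v 0) (v 1)
  have d02 := norm_sub_sq_real (v 0) (v 2)
  have d12 := norm_sub_sq_real (v 1) (v 2)
  have q01 := sq_nonneg ‖v 0 - v 1‖
  have q02 := sq_nonneg ‖v 0 - v 2‖
  have q12 := sq_nonneg ‖v 1 - v 2‖
  have hpairs : ⟪v 0, v 1⟫_ℝ + ⟪v 0, v 2⟫_ℝ + ⟪v 1, v 2⟫_ℝ = μ * N := by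
    rw [hN]; linarith
  have hge : N ≤ μ * N := by nlinarith
  have z01 : ‖v 0 - v 1‖ ^ 2 = 0 := le_antisymm (by linarith) q01
  have z02 : ‖v 0 - v 2‖ ^ 2 = 0 := le_antisymm (by linarith) q02
  rw [sq_eq_zero_iff, norm_eq_zero, sub_eq_zero] at z01 z02
  have m0 : v 0 ∈ U 1 ⊓ U 2 := hmem 0
  have m1 : v 1 ∈ U 2 ⊓ U 0 := hmem 1
  have hz : v 0 ∈ U 0 ⊓ (U 1 ⊓ U 2) := ⟨by rw [z01]; exact m1.2, m0⟩
  rw [hbot, Submodule.mem_bot] at hz
  rw [hz] at z01 z02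
  rw [hN, ← z01, ← z02, hz] at hNpos
  simp at hNpos

/-- Trickling down: `U 1 ⊓ U 2` and `U 2 ⊓ U 0` are almost orthogonal. -/
theorem trickle {ε : ℝ} (h0 : 0 ≤ ε) (h1 : ε < 1) (U : Fin 3 → Submodule ℝ V)
    (hU : ∀ i : Fin 3, EpsOrth ε (U (i + 1)) (U (i + 2)))
    (hbot : U 0 ⊓ (U 1 ⊓ U 2) = ⊥) {x y : V} (hx : x ∈ U 1 ⊓ U 2) (hy : y ∈ U 2 ⊓ U 0) :
    ⟪x, y⟫_ℝ ≤ 2 * (ε / (1 - ε)) * ‖x‖ * ‖y‖ := by
  have key : ∀ x ∈ U 1 ⊓ U 2, ∀ y ∈ U 2 ⊓ U 0,
      ⟪x, y⟫_ℝ ≤ ε / (1 - ε) * (‖x‖ ^ 2 + ‖y‖ ^ 2) := by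
    intro x hx y hy
    have h2 := rayleigh h0 h1 U hU hbot (WithLp.toLp 2 ![x, y, 0])
    have px : (WW U 0).starProjection x = x := Submodule.starProjection_eq_self_iff.2 hx
    have py : (WW U 1).starProjection y = y := Submodule.starProjection_eq_self_iff.2 hy
    simp only [PiLp.inner_apply, TT_apply, Fin.sum_univ_three] at h2
    rw [PiLp.norm_sq_eq_of_L2] at h2
    have e1 : (0 : Fin 3) + 1 = 1 := rfl
    have e2 : (0 : Fin 3) + 2 = 2 := rfl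
    have e3 : (1 : Fin 3) + 1 = 2 := rfl
    have e4 : (1 : Fin 3) + 2 = 0 := rfl
    have e5 : (2 : Fin 3) + 1 = 0 := rfl
    have e6 : (2 : Fin 3) + 2 = 1 := rfl
    simp only [e1, e2, e3, e4, e5, e6, Fin.sum_univ_three, Matrix.cons_val_zero,
      Matrix.cons_val_one, Matrix.cons_val, map_zero, add_zero, zero_add, inner_zero_right,
      px, py, norm_zero] at h2
    rw [inner_smul_left, inner_smul_left, Submodule.inner_starProjection_left_eq_right,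
      Submodule.inner_starProjection_left_eq_right, px, py] at h2
    simp at h2
    have h9 := real_inner_comm x y
    linarith
  by_cases hx0 : x = 0
  · subst hx0; simp
  by_cases hy0 : y = 0
  · subst hy0; simp
  have nx : 0 < ‖x‖ := norm_pos_iff.2 hx0
  have ny : 0 < ‖y‖ := norm_pos_iff.2 hy0
  have h3 := key (‖x‖⁻¹ • x) (Submodule.smul_mem _ _ hx) (‖y‖⁻¹ • y) (Submodule.smul_mem _ _ hy)
  rw [inner_smul_left, inner_smul_right, norm_smul, norm_smul, norm_inv, norm_inv, norm_norm,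
    norm_norm, inv_mul_cancel₀ nx.ne', inv_mul_cancel₀ ny.ne'] at h3
  simp only [conj_trivial] at h3
  have h4 : ‖x‖⁻¹ * (‖y‖⁻¹ * ⟪x, y⟫_ℝ) * (‖x‖ * ‖y‖) ≤ ε / (1 - ε) * (1 ^ 2 + 1 ^ 2) * (‖x‖ * ‖y‖) :=
    mul_le_mul_of_nonneg_right h3 (by positivity)
  have h5 : ‖x‖⁻¹ * (‖y‖⁻¹ * ⟪x, y⟫_ℝ) * (‖x‖ * ‖y‖) = ⟪x, y⟫_ℝ := by
    field_simp
  rw [h5] at h4
  linarith

end TD2

end Pool.Agent.H234R2
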